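import Pool.Agent.Y965.PL.Inp
import Pool.Agent.W26.HN.D

/-! The transfer inequality to the odd terms of the sequences `⌊n ^ c⌋` for the map `3 x - 1`, and the
first entrance of the trajectories into a finite set closed under the Syracuse map. -/

set_option autoImplicit false

namespace Pool.Agent.H417_psn

open Finset Filter Topology Pool.Agent.Y965.PS Pool.Agent.Y965.PL
open Pool.Agent.W26.HN (E En Sy E_unique E_two E_of_two od_two En_of_E E_of_En exists_E step)
open Pool.Agent.H499R2.ND (Td)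
open Pool.Agent.H499R2.LT (od od_add)

/-- the transfer inequality for the odd terms, for the map `3 x - 1` -/
theorem transfer_neg {c : ℝ} (hc : 1 < c) (hc' : c < 101 / 100) : ∃ K : ℝ, 0 ≤ K ∧ ∀ F : ℤ → ℝ, ASync (-1) F →
    (∀ m : ℕ, 1 ≤ m → F ((2 * m : ℕ) : ℤ) = F m) → TS c K (fun z => if z % 2 = 1 then F z else 0) := by
  obtain ⟨x, hx0, hx1, hγ⟩ := params hc hc'
  have hc0 : 0 < c := by linarith
  obtain ⟨K1, hK1, H1⟩ := Pool.Agent.Y965.PL.main_bound (d := -1) (Or.inr rfl) hx0 hx1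
  refine ⟨2 * K1, by linarith, ?_⟩
  intro F hF hF2
  refine ⟨fun z => ?_, fun X hX => ?_⟩
  · dsimp only
    split_ifs
    · exact hF.1 z
    · simp
  have hX1 : (1 : ℝ) ≤ X := by exact_mod_cast hX
  set M := ⌊(X : ℝ) ^ c⌋₊ with hM
  have hM1 : 1 ≤ M := by
    apply Nat.le_floor
    push_cast
    exact Real.one_le_rpow hX1 hc0.le
  rw [conv hc.le X (fun z => if z % 2 = 1 then F z else 0), ← sum_sub_distrib]
  have h2 : ∑ m ∈ Icc 1 M, ((fun z : ℤ => if z % 2 = 1 then F z else 0) (m : ℤ) *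
      ((⌈((m : ℝ) + 1) ^ (1 / c)⌉ : ℝ) - ⌈(m : ℝ) ^ (1 / c)⌉)
      - (if (m : ℤ) % 2 = 1 then F (m : ℤ) else 0) * ell (1 / c) m) = ∑ m ∈ Icc 1 M, F (m : ℤ) * ww (1 - x) (1 * m)
      - ∑ m ∈ Icc 1 (M / 2), F (m : ℤ) * ww (1 - x) (2 * m) := by
    have h3 : ∑ m ∈ Icc 1 (M / 2), F (m : ℤ) * ww (1 - x) (2 * m)
        = ∑ m ∈ Icc 1 M, (if m % 2 = 0 then F (m : ℤ) * ww (1 - x) m else 0) := by
      rw [← sum_filter]
      refine sum_bij' (fun m _ => 2 * m) (fun m _ => m / 2) ?_ ?_ ?_ ?_ ?_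
      · intro m hm
        rw [mem_Icc] at hm
        rw [mem_filter, mem_Icc]
        omega
      · intro m hm
        rw [mem_filter, mem_Icc] at hm
        rw [mem_Icc]
        omega
      · intro m _; omega
      · intro m hm
        rw [mem_filter] at hm
        omega
      · intro m hm
        rw [mem_Icc] at hm
        rw [hF2 m hm.1]
    rw [h3, ← sum_sub_distrib]
    apply sum_congr rfl
    intro m _
    dsimp only
    unfold ww ell
    rw [hγ, one_mul]
    rcases Nat.mod_two_eq_zero_or_one m with h | h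
    · rw [if_neg (show ¬ (m : ℤ) % 2 = 1 by omega), if_pos h]; ring
    · rw [if_pos (show (m : ℤ) % 2 = 1 by omega), if_neg (show ¬ m % 2 = 0 by omega)]; ring
  rw [h2]
  have k1 := (H1 M hM1 1 le_rfl (by norm_num) F hF).trans
    (mul_le_mul_of_nonneg_left (M_pow hc hγ hx1 hX (Nat.floor_le (by positivity))) (by linarith))
  have k2 : |∑ m ∈ Icc 1 (M / 2), F (m : ℤ) * ww (1 - x) (2 * m)| ≤ K1 * (X : ℝ) ^ (1 - 1 / 4000 : ℝ) := by
    rcases Nat.eq_zero_or_pos (M / 2) with h0 | h0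
    · rw [h0]
      simp only [zero_lt_one, Icc_eq_empty_of_lt, sum_empty, abs_zero]
      positivity
    · refine (H1 (M / 2) h0 2 (by norm_num) le_rfl F hF).trans
        (mul_le_mul_of_nonneg_left (M_pow hc hγ hx1 hX ?_) (by linarith))
      have h5 : ((M / 2 : ℕ) : ℝ) ≤ M := by exact_mod_cast Nat.div_le_self M 2
      exact h5.trans (Nat.floor_le (by positivity))
  refine (abs_sub _ _).trans ?_
  linarith

/-! ### the two maps -/

theorem Td_neg (x : ℤ) : Td 1 (-x) = -Tz (-1) x := by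
  unfold Pool.Agent.H499R2.ND.Td Tz
  split_ifs <;> omega

theorem Td_neg_iter (j : ℕ) (x : ℤ) : (Td 1)^[j] (-x) = -(Tz (-1))^[j] x := by
  induction j with
  | zero => rfl
  | succ j ih => rw [Function.iterate_succ_apply', ih, Td_neg, Function.iterate_succ_apply']

theorem od_neg (j : ℕ) (x : ℤ) : od 1 j (-x) = (ac (-1) j x : ℤ) := by
  induction j with
  | zero => simp [od, ac]
  | succ j ih =>
    rw [od_add, ih, ac_succ, Td_neg_iter]
    have h : ∀ y : ℤ, od 1 1 y = if y % 2 = 0 then 0 else 1 := by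
      intro y; simp [od]
    rw [h]
    push_cast
    congr 1
    rcases Int.emod_two_eq_zero_or_one ((Tz (-1))^[j] x) with h0 | h0
    · rw [if_pos (by omega), if_pos h0]
    · rw [if_neg (by omega), if_neg (by omega)]

theorem od_nonneg (j : ℕ) (x : ℤ) : 0 ≤ od 1 j x := by
  have := od_neg j (-x)
  rw [neg_neg] at this
  rw [this]
  positivity

theorem oc_le (x : ℤ) (t : ℕ) : 2 ^ (ac (-1) t x) * oc (-1) t x + 2 ^ (ac (-1) t x) * 2 ^ t ≤
    2 ^ t * 3 ^ (ac (-1) t x) := by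
  induction t with
  | zero => simp [ac, oc]
  | succ t ih =>
    have h23 : (2 : ℤ) ^ (ac (-1) t x) ≤ 3 ^ (ac (-1) t x) := pow_le_pow_left₀ (by norm_num) (by norm_num) _
    have ht : (0 : ℤ) < 2 ^ t := by positivity
    by_cases h : (Tz (-1))^[t] x % 2 = 0
    · have e1 : ac (-1) (t + 1) x = ac (-1) t x := by simp [ac, h]
      have e2 : oc (-1) (t + 1) x = oc (-1) t x := by simp [oc, h]
      rw [e1, e2, pow_succ]
      nlinarith
    · have e1 : ac (-1) (t + 1) x = ac (-1) t x + 1 := by simp [ac, h]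
      have e2 : oc (-1) (t + 1) x = 3 * oc (-1) t x + 2 ^ t := by simp [oc, h]
      rw [e1, e2, pow_succ, pow_succ, pow_succ]
      nlinarith

/-- few odd terms if a small number is reached early -/
theorem big {x : ℤ} {j : ℕ} (h : 2 ^ j < x) : (3 : ℤ) ^ (ac (-1) j x) < 2 * (Tz (-1))^[j] x := by
  have h1 := main_id (d := -1) (by norm_num) x j
  have h2 := oc_le x j
  set a := ac (-1) j x with ha
  set o := oc (-1) j x with ho
  set T := (Tz (-1))^[j] x with hT
  have hr : (0 : ℤ) < 2 ^ j := by positivity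
  rcases Nat.eq_zero_or_pos a with h0 | h0
  · rw [h0] at h2 ⊢
    rw [h0] at h1
    simp only [pow_zero, one_mul, mul_one] at *
    nlinarith
  · have hp : (2 : ℤ) ≤ 2 ^ a := by
      calc (2 : ℤ) = 2 ^ 1 := by norm_num
        _ ≤ 2 ^ a := pow_le_pow_right₀ (by norm_num) h0
    have hq : (0 : ℤ) < 3 ^ a := by positivity
    by_contra hcon
    rw [not_lt] at hcon
    set p : ℤ := 2 ^ a with hpd
    set q : ℤ := 3 ^ a with hqd
    set r : ℤ := 2 ^ j with hrd
    have hp0 : 0 < p := by linarith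
    -- `p r q ≥ 2 p r T = 2 p q x - 2 p o`
    have e1 : 2 * (p * (r * T)) ≤ p * r * q := by
      have : p * r * (2 * T) ≤ p * r * q := mul_le_mul_of_nonneg_left hcon (by positivity)
      linarith
    rw [h1] at e1
    have e2 : p * q * (r + 1) ≤ p * q * x := mul_le_mul_of_nonneg_left (by omega) (by positivity)
    have e3 : 0 ≤ r * q * (p - 2) := mul_nonneg (by positivity) (by linarith)
    have e4 : 0 < p * q := by positivity
    have e5 : 0 < p * r := by positivity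
    nlinarith

/-- the finite set of all iterates of the elements of `F` -/
theorem closure {F : Finset ℤ} (hF : ∀ y ∈ F, y % 2 = 1 ∧ Sy y ∈ F) :
    ∃ U : Finset ℤ, ∀ y ∈ F, ∀ i : ℕ, (Td 1)^[i] y ∈ U := by
  classical
  have hex : ∀ y : ℤ, ∃ v : ℕ, y ∈ F → 1 ≤ v ∧ (Td 1)^[v] y = Sy y := by
    intro y
    by_cases hy : y ∈ F
    · obtain ⟨v, h1, h2, _⟩ := step (hF y hy).1
      exact ⟨v, fun _ => ⟨h1, h2⟩⟩
    · exact ⟨0, fun h => absurd h hy⟩
  choose v hv using hex
  refine ⟨F.biUnion fun y => (range (v y)).image fun i => (Td 1)^[i] y, ?_⟩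
  intro y hy i
  induction i using Nat.strong_induction_on generalizing y with
  | _ i ih =>
    by_cases h : i < v y
    · exact mem_biUnion.2 ⟨y, hy, mem_image.2 ⟨i, mem_range.2 h, rfl⟩⟩
    · obtain ⟨h1, h2⟩ := hv y hy
      have e : (Td 1)^[i] y = (Td 1)^[i - v y] (Sy y) := by
        rw [← h2, ← Function.iterate_add_apply, Nat.sub_add_cancel (not_lt.1 h)]
      rw [e]
      exact ih _ (by omega) _ (hF y hy).2

theorem bound_od (F U : Finset ℤ) : ∃ B : ℤ, 0 ≤ B ∧ ∀ w ∈ U, ∀ k, E F k w → od 1 k w ≤ B := by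
  classical
  have hex : ∀ w : ℤ, ∃ B : ℤ, 0 ≤ B ∧ ∀ k, E F k w → od 1 k w ≤ B := by
    intro w
    by_cases h : ∃ k, E F k w
    · obtain ⟨k, hk⟩ := h
      refine ⟨od 1 k w, od_nonneg _ _, fun k' hk' => ?_⟩
      rw [E_unique hk' hk]
    · exact ⟨0, le_rfl, fun k hk => absurd ⟨k, hk⟩ h⟩
  choose B hB using hex
  refine ⟨∑ w ∈ U, B w, sum_nonneg fun w _ => (hB w).1, fun w hw k hk => ?_⟩
  exact ((hB w).2 k hk).trans (single_le_sum (f := B) (fun i _ => (hB i).1) hw)

theorem bound_abs (U : Finset ℤ) : ∃ M : ℤ, 0 ≤ M ∧ ∀ w ∈ U, |w| ≤ M := by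
  refine ⟨∑ w ∈ U, |w|, sum_nonneg fun w _ => abs_nonneg w, fun w hw => ?_⟩
  exact single_le_sum (f := fun w : ℤ => |w|) (fun i _ => abs_nonneg i) hw

/-- trajectories which are at the same point at the same time after the same number of odd terms enter
`F` at the same time, if they do this after more than `A` odd terms -/
theorem key {F : Finset ℤ} (hF : ∀ y ∈ F, y % 2 = 1 ∧ Sy y ∈ F) : ∃ A : ℕ, ∀ (j : ℕ) (x y : ℤ),
    2 ^ j < x → 2 ^ j < y → (Tz (-1))^[j] x = (Tz (-1))^[j] y → ac (-1) j x = ac (-1) j y →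
    ∀ k, E F k (-x) → (A : ℤ) < od 1 k (-x) → E F k (-y) ∧ od 1 k (-y) = od 1 k (-x) := by
  obtain ⟨U, hU⟩ := closure hF
  obtain ⟨B, hB0, hB⟩ := bound_od F U
  obtain ⟨M, hM0, hM⟩ := bound_abs U
  refine ⟨(2 * M + B).toNat, ?_⟩
  have hA : (((2 * M + B).toNat : ℕ) : ℤ) = 2 * M + B := Int.toNat_of_nonneg (by omega)
  rw [hA]
  have hsmall : ∀ (i : ℕ) (x : ℤ), 2 ^ i < x → (Td 1)^[i] (-x) ∈ U → (ac (-1) i x : ℤ) ≤ 2 * M := by
    intro i x hx hw
    have h1 := big hx
    have h2 := hM _ hw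
    rw [Td_neg_iter, abs_neg] at h2
    have h3 := le_abs_self ((Tz (-1))^[i] x)
    have h4 : ((ac (-1) i x : ℕ) : ℤ) < 3 ^ (ac (-1) i x) := by
      have := Nat.lt_pow_self (n := ac (-1) i x) (a := 3) (by norm_num)
      exact_mod_cast this
    linarith
  intro j x y hx hy hxy hac k hk hod
  have hT : (Td 1)^[j] (-x) = (Td 1)^[j] (-y) := by rw [Td_neg_iter, Td_neg_iter, hxy]
  have hodj : od 1 j (-x) = od 1 j (-y) := by rw [od_neg, od_neg, hac]
  rcases le_or_gt k j with hkj | hkj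
  · exfalso
    have h1 : (2 : ℤ) ^ k < x := lt_of_le_of_lt (pow_le_pow_right₀ (by norm_num) hkj) hx
    have h2 := hsmall k x h1 (hU _ hk.1 0)
    rw [od_neg] at hod
    linarith
  · obtain ⟨l, rfl⟩ : ∃ l, k = j + l := ⟨k - j, by omega⟩
    set w := (Td 1)^[j] (-x) with hw
    have hEw : E F l w := by
      constructor
      · rw [hw, ← Function.iterate_add_apply, add_comm]; exact hk.1
      · intro i hi
        rw [hw, ← Function.iterate_add_apply]
        exact hk.2 _ (by omega)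
    have hodx : od 1 (j + l) (-x) = od 1 j (-x) + od 1 l w := by rw [od_add]
    have hody : od 1 (j + l) (-y) = od 1 j (-y) + od 1 l w := by rw [od_add, ← hT]
    refine ⟨⟨?_, fun i hi => ?_⟩, by rw [hodx, hody, hodj]⟩
    · rw [add_comm, Function.iterate_add_apply, ← hT]; exact hEw.1
    · intro hmem
      rcases lt_or_ge i j with hij | hij
      · -- then `w` is in the closure
        have h1 : w ∈ U := by
          have h2 := hU _ hmem (j - i)
          rw [← Function.iterate_add_apply, Nat.sub_add_cancel hij.le, ← hT] at h2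
          exact h2
        have h2 := hsmall j x hx h1
        have h3 := hB w h1 l hEw
        rw [hodx, od_neg] at hod
        linarith
      · obtain ⟨i', rfl⟩ : ∃ i', i = j + i' := ⟨i - j, by omega⟩
        rw [add_comm, Function.iterate_add_apply, ← hT] at hmem
        exact hEw.2 i' (by omega) hmem

open Classical in
/-- the indicator function of the entrance after `j ∈ A`, `A1 < j` odd terms -/
noncomputable def GA (F : Finset ℤ) (A : Set ℕ) (A1 : ℕ) (x : ℤ) : ℝ :=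
  if ∃ k j : ℕ, E F k (-x) ∧ (j : ℤ) = od 1 k (-x) ∧ j ∈ A ∧ A1 < j then 1 else 0

theorem GA_two {F : Finset ℤ} (hF : ∀ y ∈ F, y % 2 = 1) (A : Set ℕ) (A1 : ℕ) (m : ℕ) :
    GA F A A1 ((2 * m : ℕ) : ℤ) = GA F A A1 m := by
  have e : -(((2 * m : ℕ) : ℕ) : ℤ) = 2 * (-(m : ℤ)) := by push_cast; ring
  unfold GA
  rw [e]
  congr 1
  apply propext
  constructor
  · rintro ⟨k, j, h1, h2, h3⟩
    obtain ⟨k', rfl, hk'⟩ := E_of_two hF h1
    exact ⟨k', j, hk', by rw [h2, od_two], h3⟩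
  · rintro ⟨k, j, h1, h2, h3⟩
    exact ⟨k + 1, j, E_two hF h1, by rw [od_two]; exact h2, h3⟩

theorem GA_async {F : Finset ℤ} (hF : ∀ y ∈ F, y % 2 = 1 ∧ Sy y ∈ F) : ∃ A1 : ℕ, ∀ A : Set ℕ,
    ASync (-1) (GA F A A1) := by
  obtain ⟨A1, h⟩ := key hF
  refine ⟨A1, fun A => ⟨fun x => ?_, fun j x y hx hy hxy hac => ?_⟩⟩
  · unfold GA; split_ifs <;> norm_num
  · unfold GA
    congr 1
    apply propext
    constructor
    · rintro ⟨k, i, h1, h2, h3, h4⟩
      obtain ⟨g1, g2⟩ := h j x y hx hy hxy hac k h1 (by rw [← h2]; exact_mod_cast h4)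
      exact ⟨k, i, g1, by rw [g2]; exact h2, h3, h4⟩
    · rintro ⟨k, i, h1, h2, h3, h4⟩
      obtain ⟨g1, g2⟩ := h j y x hy hx hxy.symm hac.symm k h1 (by rw [← h2]; exact_mod_cast h4)
      exact ⟨k, i, g1, by rw [g2]; exact h2, h3, h4⟩

/-- the odd `n` such that `-n` enters `F` after `k ∈ A` Syracuse steps -/
def PE (F : Finset ℤ) (A : Set ℕ) (n : ℕ) : Prop := n % 2 = 1 ∧ ∃ k ∈ A, En F k (-(n : ℤ))

theorem GA_odd {F : Finset ℤ} (hF : ∀ y ∈ F, y % 2 = 1) (A : Set ℕ) (A1 : ℕ) (n : ℕ) :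
    (if (n : ℤ) % 2 = 1 then GA F A A1 n else 0) = ind (PE F (A ∩ {k | A1 < k})) n := by
  by_cases hn : n % 2 = 1
  · rw [if_pos (by omega)]
    unfold GA ind PE
    congr 1
    apply propext
    have hx : (-(n : ℤ)) % 2 = 1 := by omega
    constructor
    · rintro ⟨k, j, h1, h2, h3, h4⟩
      obtain ⟨i, hi, hi'⟩ := En_of_E hF k _ hx h1
      have : i = j := by rw [← h2] at hi; exact_mod_cast hi
      subst this
      exact ⟨hn, i, ⟨h3, h4⟩, hi'⟩
    · rintro ⟨_, i, ⟨h3, h4⟩, hi⟩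
      obtain ⟨k, hk, hk'⟩ := E_of_En hF i _ hx hi
      exact ⟨k, i, hk', hk, h3, h4⟩
  · rw [if_neg (by omega), ind_neg (fun h => hn h.1)]

end Pool.Agent.H417_psn
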