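import Pool.Agent.H417_psn.A

/-! Few numbers enter a finite set after a bounded number of odd terms; transfer for the entrance sets;
laws along the sequence. -/

set_option autoImplicit false

namespace Pool.Agent.H417_psn

open Finset Filter Topology Pool.Agent.Y965.PS Pool.Agent.Y965.PL
open Pool.Agent.W26.HN (E En Sy E_unique E_two E_of_two od_two En_of_E E_of_En exists_E step)
open Pool.Agent.H499R2.ND (Td Dn)
open Pool.Agent.H499R2.LT (od od_add)

theorem grow {f : ℕ → ℝ} {B : ℝ} (hB : 0 ≤ B) (h0 : f 0 = 0)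
    (h : ∀ X : ℕ, 1 ≤ X → f X ≤ f (X / 2) + B * √ (X : ℝ)) (X : ℕ) : f X ≤ 4 * B * √ (X : ℝ) := by
  induction X using Nat.strong_induction_on with
  | _ X ih =>
    rcases Nat.eq_zero_or_pos X with hX | hX
    · subst hX; rw [h0]; positivity
    · have h1 := ih (X / 2) (by omega)
      have h2 := h X hX
      have h3 : √ ((X / 2 : ℕ) : ℝ) ≤ 3 / 4 * √ (X : ℝ) := by
        rw [Real.sqrt_le_left (by positivity), mul_pow, Real.sq_sqrt (Nat.cast_nonneg _)]
        have h4 : ((X / 2 : ℕ) : ℝ) ≤ X / 2 := Nat.cast_div_le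
        have h5 : (0 : ℝ) ≤ X := Nat.cast_nonneg _
        linarith
      have h6 : 4 * B * √ ((X / 2 : ℕ) : ℝ) ≤ 4 * B * (3 / 4 * √ (X : ℝ)) :=
        mul_le_mul_of_nonneg_left h3 (by positivity)
      linarith

/-- `-m` reaches `F` with at most `a` odd terms before -/
def Rh (F : Finset ℤ) (a : ℕ) (m : ℕ) : Prop := ∃ t : ℕ, (Td 1)^[t] (-(m : ℤ)) ∈ F ∧ od 1 t (-(m : ℤ)) ≤ a

theorem Rh_even {F : Finset ℤ} {a m : ℕ} (hm : m % 2 = 0) (h : Rh F a m) : -(m : ℤ) ∈ F ∨ Rh F a (m / 2) := by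
  obtain ⟨t, h1, h2⟩ := h
  rcases t with _ | t
  · exact Or.inl h1
  · right
    have e : -(m : ℤ) = 2 * (-((m / 2 : ℕ) : ℤ)) := by omega
    refine ⟨t, ?_, ?_⟩
    · rw [e, Function.iterate_succ_apply, Pool.Agent.W26.HN.Td_two] at h1; exact h1
    · rw [e, od_two] at h2; exact h2

theorem Rh_odd {F : Finset ℤ} {a m : ℕ} (hm : m % 2 = 1) (h : Rh F a m) :
    -(m : ℤ) ∈ F ∨ ∃ b, a = b + 1 ∧ Rh F b ((3 * m - 1) / 2) := by
  obtain ⟨t, h1, h2⟩ := h
  rcases t with _ | t
  · exact Or.inl h1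
  · right
    have e : Td 1 (-(m : ℤ)) = -(((3 * m - 1) / 2 : ℕ) : ℤ) := by
      unfold Pool.Agent.H499R2.ND.Td
      rw [if_neg (by omega)]
      omega
    have e2 : od 1 (t + 1) (-(m : ℤ)) = 1 + od 1 t (-(((3 * m - 1) / 2 : ℕ) : ℤ)) := by
      rw [od, if_neg (by omega), e]
    rw [e2] at h2
    have h3 := od_nonneg t (-(((3 * m - 1) / 2 : ℕ) : ℤ))
    obtain ⟨b, rfl⟩ : ∃ b, a = b + 1 := ⟨a - 1, by omega⟩
    refine ⟨b, rfl, t, ?_, by rw [Nat.cast_add, Nat.cast_one] at h2; linarith⟩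
    rw [Function.iterate_succ_apply, e] at h1
    exact h1

open Classical in
/-- counting -/
theorem Rh_count (F : Finset ℤ) (a : ℕ) : ∃ B : ℝ, 0 ≤ B ∧ ∀ X : ℕ,
    (((Icc 1 X).filter fun m => Rh F a m).card : ℝ) ≤ B * √ (X : ℝ) := by
  have hF : ∀ X : ℕ, (((Icc 1 X).filter fun m : ℕ => -(m : ℤ) ∈ F).card : ℝ) ≤ F.card := by
    intro X
    have : ((Icc 1 X).filter fun m : ℕ => -(m : ℤ) ∈ F).card ≤ F.card := by
      apply card_le_card_of_injOn (fun m : ℕ => -(m : ℤ))
      · intro m hm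
        have hm' := (mem_filter.1 (mem_coe.1 hm)).2
        exact mem_coe.2 hm'
      · intro m _ m' _ h
        have : -(m : ℤ) = -(m' : ℤ) := h
        omega
    exact_mod_cast this
  have hhalf : ∀ (a X : ℕ), ((((Icc 1 X).filter fun m => Rh F a m).filter fun m => m % 2 = 0).card : ℝ) ≤
      F.card + ((Icc 1 (X / 2)).filter fun m => Rh F a m).card := by
    intro a X
    have h1 : ((Icc 1 X).filter fun m => Rh F a m).filter (fun m => m % 2 = 0) ⊆
        ((Icc 1 X).filter fun m : ℕ => -(m : ℤ) ∈ F) ∪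
        (((Icc 1 (X / 2)).filter fun m => Rh F a m).image fun m => 2 * m) := by
      intro m hm
      rw [mem_filter, mem_filter, mem_Icc] at hm
      obtain ⟨⟨hm1, hm2⟩, hm3⟩ := hm
      rw [mem_union, mem_filter, mem_Icc, mem_image]
      rcases Rh_even hm3 hm2 with h | h
      · exact Or.inl ⟨hm1, h⟩
      · exact Or.inr ⟨m / 2, mem_filter.2 ⟨mem_Icc.2 (by omega), h⟩, by omega⟩
    have h2 := (card_le_card h1).trans (card_union_le _ _)
    have h3 := card_image_le (s := (Icc 1 (X / 2)).filter fun m => Rh F a m) (f := fun m => 2 * m)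
    have h4 := hF X
    have h5 : ((((Icc 1 X).filter fun m => Rh F a m).filter fun m => m % 2 = 0).card : ℝ) ≤
        (((Icc 1 X).filter fun m : ℕ => -(m : ℤ) ∈ F).card : ℝ) +
        (((Icc 1 (X / 2)).filter fun m => Rh F a m).card : ℝ) := by
      exact_mod_cast h2.trans (Nat.add_le_add_left h3 _)
    linarith
  have hsplit : ∀ (a X : ℕ), (((Icc 1 X).filter fun m => Rh F a m).card : ℝ) =
      ((((Icc 1 X).filter fun m => Rh F a m).filter fun m => m % 2 = 0).card : ℝ) +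
      ((((Icc 1 X).filter fun m => Rh F a m).filter fun m => ¬ m % 2 = 0).card : ℝ) := by
    intro a X
    have := card_filter_add_card_filter_not (s := (Icc 1 X).filter fun m => Rh F a m) (fun m => m % 2 = 0)
    exact_mod_cast this.symm
  have hsq : ∀ X : ℕ, 1 ≤ X → (1 : ℝ) ≤ √ (X : ℝ) := by
    intro X hX
    rw [Real.one_le_sqrt]
    exact_mod_cast hX
  have hFc : (0 : ℝ) ≤ F.card := Nat.cast_nonneg _
  induction a with
  | zero =>
    refine ⟨4 * (2 * F.card), by positivity, fun X => ?_⟩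
    refine grow (f := fun X => (((Icc 1 X).filter fun m => Rh F 0 m).card : ℝ)) (by positivity) (by simp)
      (fun X hX => ?_) X
    rw [hsplit]
    have h1 := hhalf 0 X
    have h2 : ((((Icc 1 X).filter fun m => Rh F 0 m).filter fun m => ¬ m % 2 = 0).card : ℝ) ≤ F.card := by
      refine le_trans ?_ (hF X)
      have : (((Icc 1 X).filter fun m => Rh F 0 m).filter fun m => ¬ m % 2 = 0) ⊆
          (Icc 1 X).filter fun m : ℕ => -(m : ℤ) ∈ F := by
        intro m hm
        rw [mem_filter, mem_filter] at hm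
        rw [mem_filter]
        refine ⟨hm.1.1, ?_⟩
        rcases Rh_odd (by omega) hm.1.2 with h | ⟨b, hb, _⟩
        · exact h
        · omega
      exact_mod_cast card_le_card this
    have h3 := hsq X hX
    nlinarith
  | succ a ih =>
    obtain ⟨B, hB, hB'⟩ := ih
    refine ⟨4 * (2 * F.card + 2 * B), by positivity, fun X => ?_⟩
    refine grow (f := fun X => (((Icc 1 X).filter fun m => Rh F (a + 1) m).card : ℝ)) (by positivity) (by simp)
      (fun X hX => ?_) X
    rw [hsplit]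
    have h1 := hhalf (a + 1) X
    have h2 : ((((Icc 1 X).filter fun m => Rh F (a + 1) m).filter fun m => ¬ m % 2 = 0).card : ℝ) ≤
        F.card + (((Icc 1 (2 * X)).filter fun m => Rh F a m).card : ℝ) := by
      have h3 : (((Icc 1 X).filter fun m => Rh F (a + 1) m).filter fun m => ¬ m % 2 = 0) ⊆
          ((Icc 1 X).filter fun m : ℕ => -(m : ℤ) ∈ F) ∪
          (((Icc 1 X).filter fun m => m % 2 = 1 ∧ Rh F a ((3 * m - 1) / 2))) := by
        intro m hm
        rw [mem_filter, mem_filter] at hm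
        rw [mem_union, mem_filter, mem_filter]
        rcases Rh_odd (by omega) hm.1.2 with h | ⟨b, hb, hb'⟩
        · exact Or.inl ⟨hm.1.1, h⟩
        · have : a = b := by omega
          subst this
          exact Or.inr ⟨hm.1.1, by omega, hb'⟩
      have h4 : ((Icc 1 X).filter fun m => m % 2 = 1 ∧ Rh F a ((3 * m - 1) / 2)).card ≤
          ((Icc 1 (2 * X)).filter fun m => Rh F a m).card := by
        apply card_le_card_of_injOn (fun m : ℕ => (3 * m - 1) / 2)
        · intro m hm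
          have hm' := mem_filter.1 (mem_coe.1 hm)
          have hm'' := mem_Icc.1 hm'.1
          refine mem_coe.2 (mem_filter.2 ⟨mem_Icc.2 ?_, hm'.2.2⟩)
          have := hm'.2.1
          dsimp only
          omega
        · intro m hm m' hm' h
          have g1 := (mem_filter.1 (mem_coe.1 hm))
          have g2 := (mem_filter.1 (mem_coe.1 hm'))
          have g3 := mem_Icc.1 g1.1
          have g4 := mem_Icc.1 g2.1
          have g5 := g1.2.1
          have g6 := g2.2.1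
          have : (3 * m - 1) / 2 = (3 * m' - 1) / 2 := h
          omega
      have h5 := (card_le_card h3).trans (card_union_le _ _)
      have h6 := hF X
      have h7 : ((((Icc 1 X).filter fun m => Rh F (a + 1) m).filter fun m => ¬ m % 2 = 0).card : ℝ) ≤
          (((Icc 1 X).filter fun m : ℕ => -(m : ℤ) ∈ F).card : ℝ) +
          (((Icc 1 (2 * X)).filter fun m => Rh F a m).card : ℝ) := by
        exact_mod_cast h5.trans (Nat.add_le_add_left h4 _)
      linarith
    have h3 := hsq X hX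
    have h4 := hB' (2 * X)
    have h5 : √ ((2 * X : ℕ) : ℝ) ≤ 2 * √ (X : ℝ) := by
      rw [Real.sqrt_le_left (by positivity), mul_pow, Real.sq_sqrt (Nat.cast_nonneg _)]
      push_cast
      have : (0 : ℝ) ≤ X := Nat.cast_nonneg _
      linarith
    have h6 : B * √ ((2 * X : ℕ) : ℝ) ≤ B * (2 * √ (X : ℝ)) := mul_le_mul_of_nonneg_left h5 hB
    nlinarith

theorem ell_le_one {γ : ℝ} (hγ0 : 0 ≤ γ) (hγ1 : γ ≤ 1) (m : ℕ) : ell γ m ≤ 1 := by
  unfold ell
  have h := Real.rpow_add_le_add_rpow (Nat.cast_nonneg m) zero_le_one hγ0 hγ1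
  rw [Real.one_rpow] at h
  linarith

open Classical in
/-- changing a function on a thin set -/
theorem TS_few {c K B : ℝ} (hc : 1 < c) (hc' : c < 101 / 100) (hB : 0 ≤ B) {F G : ℤ → ℝ} (hF : TS c K F)
    (hG : ∀ x, |G x| ≤ 1) {S : ℕ → Prop} (hS : ∀ m : ℕ, |G m - F m| ≤ ind S m)
    (hcount : ∀ N : ℕ, (((Icc 1 N).filter S).card : ℝ) ≤ B * √ (N : ℝ)) : TS c (K + 3 * B) G := by
  have hc0 : 0 < c := by linarith
  have hγ0 : 0 < 1 / c := by positivity
  have hγ1 : 1 / c ≤ 1 := by rw [div_le_one hc0]; exact hc.le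
  refine ⟨hG, fun X hX => ?_⟩
  have hX1 : (1 : ℝ) ≤ X := by exact_mod_cast hX
  have hX0 : (0 : ℝ) < X := by linarith
  set M := ⌊(X : ℝ) ^ c⌋₊ with hM
  have hsum : ∑ m ∈ Icc 1 M, ind S m ≤ B * √ (M : ℝ) := by
    refine le_trans (le_of_eq ?_) (hcount M)
    unfold ind
    rw [sum_boole]
  have hsqrt : √ (M : ℝ) ≤ (X : ℝ) ^ (1 - 1 / 4000 : ℝ) := by
    have h1 : (M : ℝ) ≤ (X : ℝ) ^ c := Nat.floor_le (by positivity)
    refine (Real.sqrt_le_sqrt h1).trans ?_
    rw [Real.sqrt_eq_rpow, ← Real.rpow_mul hX0.le]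
    apply Real.rpow_le_rpow_of_exponent_le hX1
    linarith
  have hBs : B * √ (M : ℝ) ≤ B * (X : ℝ) ^ (1 - 1 / 4000 : ℝ) := mul_le_mul_of_nonneg_left hsqrt hB
  have h1 := hF.2 X hX
  have h2 : |∑ n ∈ Icc 1 X, G ⌊(n : ℝ) ^ c⌋ - ∑ n ∈ Icc 1 X, F ⌊(n : ℝ) ^ c⌋| ≤ 2 * (B * √ (M : ℝ)) := by
    rw [conv hc.le X F, conv hc.le X G, ← sum_sub_distrib]
    refine (abs_sum_le_sum_abs _ _).trans ?_
    have h3 : ∀ m ∈ Icc 1 M, |G m * ((⌈((m : ℝ) + 1) ^ (1 / c)⌉ : ℝ) - ⌈(m : ℝ) ^ (1 / c)⌉) -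
        F m * ((⌈((m : ℝ) + 1) ^ (1 / c)⌉ : ℝ) - ⌈(m : ℝ) ^ (1 / c)⌉)| ≤ 2 * ind S m := by
      intro m _
      rw [← sub_mul, abs_mul]
      have g1 := hS m
      have g2 : |(⌈((m : ℝ) + 1) ^ (1 / c)⌉ : ℝ) - ⌈(m : ℝ) ^ (1 / c)⌉| ≤ 2 := by
        have g3 := ell_le_one hγ0.le hγ1 m
        have g4 := ell_nonneg hγ0 m
        unfold ell at g3 g4
        have g5 := Int.ceil_lt_add_one (((m : ℝ) + 1) ^ (1 / c))
        have g6 := Int.le_ceil (((m : ℝ) + 1) ^ (1 / c))
        have g7 := Int.ceil_lt_add_one ((m : ℝ) ^ (1 / c))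
        have g8 := Int.le_ceil ((m : ℝ) ^ (1 / c))
        rw [abs_le]
        constructor <;> linarith
      have g9 := ind_nonneg S m
      have g10 := abs_nonneg (G m - F m)
      have g11 := abs_nonneg ((⌈((m : ℝ) + 1) ^ (1 / c)⌉ : ℝ) - ⌈(m : ℝ) ^ (1 / c)⌉)
      nlinarith
    refine (sum_le_sum h3).trans ?_
    rw [← mul_sum]
    linarith
  have h3 : |∑ m ∈ Icc 1 M, G m * ell (1 / c) m - ∑ m ∈ Icc 1 M, F m * ell (1 / c) m| ≤ B * √ (M : ℝ) := by
    rw [← sum_sub_distrib]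
    refine (abs_sum_le_sum_abs _ _).trans ?_
    have h4 : ∀ m ∈ Icc 1 M, |G m * ell (1 / c) m - F m * ell (1 / c) m| ≤ ind S m := by
      intro m _
      rw [← sub_mul, abs_mul, abs_of_nonneg (ell_nonneg hγ0 m)]
      have g1 := hS m
      have g3 := ell_le_one hγ0.le hγ1 m
      have g4 := ell_nonneg hγ0 m
      have g10 := abs_nonneg (G m - F m)
      nlinarith
    exact (sum_le_sum h4).trans hsum
  rw [abs_le] at *
  constructor <;> linarith [h1.1, h1.2, h2.1, h2.2, h3.1, h3.2]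

end Pool.Agent.H417_psn
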