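import Pool.Agent.H417_psn.B

/-! Transfer for the invariant sets and the entrance sets; laws along the sequence. -/

set_option autoImplicit false

namespace Pool.Agent.H417_psn

open Finset Filter Topology Pool.Agent.Y965.PS Pool.Agent.Y965.PL
open Pool.Agent.W26.HN (E En Sy E_unique E_two E_of_two od_two En_of_E E_of_En exists_E step Lift lift_inv lift_odd)
open Pool.Agent.H499R2.ND (Td Dn Inv)
open Pool.Agent.H499R2.LT (od od_add)

/-- transfer for the entrance sets -/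
theorem TS_PE {c : ℝ} (hc : 1 < c) (hc' : c < 101 / 100) {F : Finset ℤ} (hF : ∀ y ∈ F, y % 2 = 1 ∧ Sy y ∈ F) :
    ∃ K : ℝ, 0 ≤ K ∧ ∀ A : Set ℕ, TS c K (fun z => ind (PE F A) z.toNat) := by
  obtain ⟨K0, hK0, hT⟩ := transfer_neg hc hc'
  obtain ⟨A1, hA1⟩ := GA_async hF
  obtain ⟨B, hB, hB'⟩ := Rh_count F A1
  have hF' : ∀ y ∈ F, y % 2 = 1 := fun y hy => (hF y hy).1
  refine ⟨K0 + 3 * B, by linarith, fun A => ?_⟩
  have h1 := hT (GA F A A1) (hA1 A) (fun m _ => GA_two hF' A A1 m)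
  refine TS_few hc hc' hB h1 (fun x => ind_abs _ _) (S := fun m => Rh F A1 m) (fun m => ?_) hB'
  rw [Int.toNat_natCast, GA_odd hF']
  by_cases h : Rh F A1 m
  · rw [ind_pos h]
    have g1 := ind_nonneg (PE F A) m
    have g2 := ind_le_one (PE F A) m
    have g3 := ind_nonneg (PE F (A ∩ {k | A1 < k})) m
    have g4 := ind_le_one (PE F (A ∩ {k | A1 < k})) m
    rw [abs_le]
    constructor <;> linarith
  · have h2 : PE F A m ↔ PE F (A ∩ {k | A1 < k}) m := by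
      constructor
      · rintro ⟨hm, k, hk, hkE⟩
        refine ⟨hm, k, ⟨hk, ?_⟩, hkE⟩
        show A1 < k
        by_contra hcon
        obtain ⟨t, ht, htE⟩ := E_of_En hF' k (-(m : ℤ)) (by omega) hkE
        exact h ⟨t, htE.1, by rw [← ht]; exact_mod_cast not_lt.1 hcon⟩
      · rintro ⟨hm, k, hk, hkE⟩
        exact ⟨hm, k, hk.1, hkE⟩
    rw [ind_congr h2, sub_self, abs_zero]
    exact ind_nonneg _ _

theorem Inv_iter {S : Set ℤ} (h : Inv 1 S) (j : ℕ) (x : ℤ) : x ∈ S ↔ (Td 1)^[j] x ∈ S := by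
  induction j with
  | zero => rfl
  | succ j ih => rw [ih, Function.iterate_succ_apply']; exact h _

open Classical in
/-- transfer for the invariant sets -/
theorem TS_inv {c : ℝ} (hc : 1 < c) (hc' : c < 101 / 100) : ∃ K : ℝ, 0 ≤ K ∧ ∀ S : Set ℤ,
    (∀ N : ℤ, N < 0 → N % 2 = 1 → (N ∈ S ↔ Sy N ∈ S)) →
    TS c K (fun z => ind (fun n => n % 2 = 1 ∧ -(n : ℤ) ∈ S) z.toNat) := by
  obtain ⟨K0, hK0, hT⟩ := transfer_neg hc hc'
  refine ⟨K0, hK0, fun S hS => ?_⟩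
  have hI := lift_inv hS
  have h1 := hT (fun z => if -z ∈ Lift S then 1 else 0) ⟨fun x => by dsimp only; split_ifs <;> norm_num,
    fun j x y _ _ hxy _ => ?_⟩ (fun m _ => ?_)
  · refine TS_congr h1 (fun x => ind_abs _ _) (fun m => ?_)
    rw [Int.toNat_natCast]
    by_cases hm : m % 2 = 1
    · rw [if_pos (by omega)]
      unfold ind
      congr 1
      apply propext
      rw [lift_odd (by omega) (by omega)]
      exact ⟨fun h => ⟨hm, h⟩, fun h => h.2⟩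
    · rw [if_neg (by omega), ind_neg (fun h => hm h.1)]
  · dsimp only
    congr 1
    apply propext
    rw [Inv_iter hI j (-x), Inv_iter hI j (-y), Td_neg_iter, Td_neg_iter, hxy]
  · congr 1
    apply propext
    rw [show -(((2 * m : ℕ) : ℕ) : ℤ) = 2 * (-(m : ℤ)) by push_cast; ring]
    exact hI.two _

/-- THE LAW ALONG THE SEQUENCE -/
theorem ps_lawG {c K : ℝ} (hc : 1 < c) (hc' : c < 101 / 100) (hK : 0 ≤ K) {L : ℝ → ℕ → Prop}
    (hmono : ∀ t t' n, t ≤ t' → L t n → L t' n) (hTS : ∀ t : ℝ, TS c K (fun z => ind (L t) z.toNat))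
    {A b : ℝ} (hA : 0 ≤ A) (hb : 0 < b) {d : ℝ → ℝ} (hd : Continuous d) (hd01 : ∀ x, 0 ≤ d x ∧ d x ≤ 1)
    (hlaw : ∀ x, Mn (ind (fun n => L (th A b x n) n)) (d x)) (x : ℝ) :
    MnS (ps c) (ind (fun n => L (th A b x n) n)) (d x) := by
  apply MnS_of
  intro ε hε hε1
  obtain ⟨r, hr, hr'⟩ := Metric.continuousAt_iff.1 (hd.continuousAt (x := x)) (ε / 4) (by positivity)
  set θ : ℝ := r / 4 with hθ
  have hθ0 : 0 < θ := by positivity
  have d1 := hr' (x := x + 2 * θ) (by rw [Real.dist_eq, add_sub_cancel_left, abs_of_pos (by positivity)]; linarith)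
  have d2 := hr' (x := x - 2 * θ) (by
    rw [Real.dist_eq, sub_sub_cancel_left, abs_neg, abs_of_pos (by positivity)]; linarith)
  rw [Real.dist_eq, abs_lt] at d1 d2
  set W : ℝ → ℕ → Prop := fun y n => L (th A b y n) n with hW
  have hWm : ∀ y y' : ℝ, y ≤ y' → ∀ n, W y n → W y' n := fun y y' hy n h => hmono _ _ _ (th_mono hb hy n) h
  have hε2 : 0 < ε / 2 := by positivity
  have hκ : 0 < (ε / 2 / 12) ^ 2 := by positivity
  have hsq := squeeze hc hc' hK (u := ind (W x)) (v := fun n => ind (W (x + 2 * θ)) n - ind (W (x - 2 * θ)) n)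
    (d := d x) (e := d (x + 2 * θ) - d (x - 2 * θ)) (ind_abs _)
    (fun m => by
      have h1 := ind_mono (n := m) (hWm (x - 2 * θ) (x + 2 * θ) (by linarith) m)
      have h2 := ind_nonneg (W (x - 2 * θ)) m
      have h3 := ind_le_one (W (x + 2 * θ)) m
      rw [abs_le]; constructor <;> linarith) (hlaw x) ((hlaw _).sub (hlaw _))
    (by rw [abs_of_nonneg (hd01 x).1]; exact (hd01 x).2)
    (by
      have h1 := hd01 (x + 2 * θ)
      have h2 := hd01 (x - 2 * θ)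
      rw [abs_le]; constructor <;> linarith) hε2 (by linarith)
  have hN : Tendsto (fun X : ℕ => ⌊(X : ℝ) ^ c⌋₊) atTop atTop := by
    apply tendsto_nat_floor_atTop.comp
    exact (tendsto_rpow_atTop (by linarith)).comp tendsto_natCast_atTop_atTop
  filter_upwards [hsq, hN.eventually (th_cmp hA hb (show x - θ < x by linarith) hκ),
    hN.eventually (th_cmp hA hb (show x < x + θ by linarith) hκ),
    hN.eventually (th_cmp hA hb (show x - 2 * θ < x - θ by linarith) hκ),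
    hN.eventually (th_cmp hA hb (show x + θ < x + 2 * θ by linarith) hκ)] with X h c1 c2 c3 c4
  set N := ⌊(X : ℝ) ^ c⌋₊ with hNdef
  have h1 := h (ind (W x)) (fun z => ind (L (th A b (x - θ) N)) z.toNat)
    (fun z => ind (L (th A b (x + θ) N)) z.toNat) (ind_abs _) (hTS _) (hTS _) ?_
  · refine h1.trans ?_
    have hX0 : (0 : ℝ) ≤ X := Nat.cast_nonneg _
    nlinarith
  · intro m hm1 hm2
    simp only [Int.toNat_natCast]
    have i1 : ind (L (th A b (x - θ) N)) m ≤ ind (W x) m := ind_mono (hmono _ _ _ (c1 m hm1 hm2).2)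
    have i2 : ind (W x) m ≤ ind (L (th A b (x + θ) N)) m := ind_mono (hmono _ _ _ (c2 m hm1 hm2).1)
    have i3 : ind (W (x - 2 * θ)) m ≤ ind (L (th A b (x - θ) N)) m := ind_mono (hmono _ _ _ (c3 m hm1 hm2).1)
    have i4 : ind (L (th A b (x + θ) N)) m ≤ ind (W (x + 2 * θ)) m := ind_mono (hmono _ _ _ (c4 m hm1 hm2).2)
    have i5 : ind (W x) m ≤ ind (W (x + 2 * θ)) m := ind_mono (hWm _ _ (by linarith) m)
    have i6 : ind (W (x - 2 * θ)) m ≤ ind (W x) m := ind_mono (hWm _ _ (by linarith) m)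
    refine ⟨i1, i2, by linarith, by linarith⟩

open Classical in
/-- the transfer inequality in terms of numbers of elements -/
theorem TS_card {c K : ℝ} {P : ℕ → Prop} (h : TS c K (fun z => ind P z.toNat)) (X : ℕ) (hX : 1 ≤ X) :
    |({n : ℕ | 1 ≤ n ∧ n ≤ X ∧ P ⌊(n : ℝ) ^ c⌋₊}.ncard : ℝ) -
      ∑ m ∈ (Icc 1 ⌊(X : ℝ) ^ c⌋₊).filter P, (((m : ℝ) + 1) ^ (1 / c) - (m : ℝ) ^ (1 / c))| ≤
      K * (X : ℝ) ^ (1 - 1 / 4000 : ℝ) := by
  have h1 := h.2 X hX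
  have e1 : ({n : ℕ | 1 ≤ n ∧ n ≤ X ∧ P ⌊(n : ℝ) ^ c⌋₊}.ncard : ℝ) =
      ∑ n ∈ Icc 1 X, ind P ⌊(n : ℝ) ^ c⌋.toNat := by
    have e : {n : ℕ | 1 ≤ n ∧ n ≤ X ∧ P ⌊(n : ℝ) ^ c⌋₊} =
        ((Icc 1 X).filter fun n : ℕ => P ⌊(n : ℝ) ^ c⌋₊ : Finset ℕ) := by
      ext n
      simp only [Set.mem_ofPred_eq, coe_filter, mem_Icc, and_assoc]
    rw [e, Set.ncard_coe_finset]
    unfold ind
    have e2 : ∀ n : ℕ, ⌊(n : ℝ) ^ c⌋.toNat = ⌊(n : ℝ) ^ c⌋₊ := fun n => rfl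
    simp only [e2]
    rw [sum_boole]
  have e2 : ∑ m ∈ (Icc 1 ⌊(X : ℝ) ^ c⌋₊).filter P, (((m : ℝ) + 1) ^ (1 / c) - (m : ℝ) ^ (1 / c)) =
      ∑ m ∈ Icc 1 ⌊(X : ℝ) ^ c⌋₊, ind P (m : ℤ).toNat * ell (1 / c) m := by
    rw [sum_filter]
    apply sum_congr rfl
    intro m _
    rw [Int.toNat_natCast]
    unfold ind ell
    split_ifs
    · rw [one_mul]
    · rw [zero_mul]
  rw [e1, e2]
  exact h1

/-- densities along the sequence -/
theorem MnS_card {c : ℝ} {P : ℕ → Prop} {d : ℝ} (h : MnS (ps c) (ind P) (d / 2)) :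
    Tendsto (fun X : ℕ => 2 / (X : ℝ) * ({n : ℕ | 1 ≤ n ∧ n ≤ X ∧ P ⌊(n : ℝ) ^ c⌋₊}.ncard : ℝ)) atTop (𝓝 d) := by
  classical
  unfold MnS at h
  have h1 := h.const_mul 2
  rw [mul_div_cancel₀ d (by norm_num : (2 : ℝ) ≠ 0)] at h1
  refine h1.congr fun X => ?_
  have e : {n : ℕ | 1 ≤ n ∧ n ≤ X ∧ P ⌊(n : ℝ) ^ c⌋₊} =
      ((Icc 1 X).filter fun n : ℕ => P ⌊(n : ℝ) ^ c⌋₊ : Finset ℕ) := by
    ext n
    simp only [Set.mem_ofPred_eq, coe_filter, mem_Icc, and_assoc]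
  rw [e, Set.ncard_coe_finset]
  have e2 : ∑ n ∈ Icc 1 X, ind P (ps c n) = (((Icc 1 X).filter fun n : ℕ => P ⌊(n : ℝ) ^ c⌋₊).card : ℝ) := by
    unfold ind ps
    rw [sum_boole]
  rw [e2]
  ring

end Pool.Agent.H417_psn
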