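import Pool.Agent.H417_psn.C

/-! The laws of the entrance times along the sequence `-⌊n ^ c⌋`. -/

set_option autoImplicit false

namespace Pool.Agent.H417_psn

open Finset Filter Topology Pool.Agent.Y965.PS Pool.Agent.Y965.PL
open Pool.Agent.W26.HN
open Pool.Agent.H499R2.ND (Td Dn Inv Phi Phi_continuous)
open Pool.Agent.H499R2.LT (od od_add Dn_iff)
open Pool.Agent.H499R2.HL (bo)

/-- the natural law for a finite closed set -/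
theorem law_fin {F : Finset ℤ} (hF : ∀ y ∈ F, y < 0 ∧ y % 2 = 1 ∧ Sy y ∈ F) (hne : F.Nonempty) :
    ∃ δ : ℝ, 0 < δ ∧ δ ≤ 1 ∧ Dn (fun n : ℕ => n % 2 = 1 ∧ -(n : ℤ) ∈ Ba F) (δ / 2) ∧
    ∀ (q : ℕ) (b : ℤ), 1 ≤ q →
      Dn (fun n : ℕ => n % 2 = 1 ∧ ∃ k : ℕ, En F k (-(n : ℤ)) ∧ (k : ℤ) ≡ b [ZMOD q]) (δ / q / 2) ∧
      ∀ x : ℝ, Dn (fun n : ℕ => n % 2 = 1 ∧ ∃ k : ℕ, En F k (-(n : ℤ)) ∧
        (k : ℝ) ≤ bo x (Real.log n) ∧ (k : ℤ) ≡ b [ZMOD q]) (δ / q * Phi x / 2) := by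
  have hodd : ∀ y ∈ F, y % 2 = 1 := fun y hy => (hF y hy).2.1
  obtain ⟨d, h0, hpos, _, hE, hlaw⟩ := law_odd hodd (s := -1) (Or.inr rfl)
  obtain ⟨y, hy⟩ := hne
  have hd : 0 < d := by
    refine hpos ⟨Sy y, (hF y hy).2.2, ?_, Sy_three (hodd y hy)⟩
    have := (hF _ (hF y hy).2.2).1
    omega
  have hBa : Dn (fun n : ℕ => n % 2 = 1 ∧ -(n : ℤ) ∈ Ba F) (d / 2) := by
    refine Dn_iff (fun n hn => and_congr_right fun hn2 => ?_) hE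
    rw [neg_cast]
    have hx : (-(n : ℤ)) % 2 = 1 := by omega
    constructor
    · rintro ⟨k, hk⟩
      obtain ⟨j, _, hj⟩ := En_of_E hodd k _ hx hk
      exact ⟨j, hj.1⟩
    · rintro ⟨j, hj⟩
      obtain ⟨k, _, hk⟩ := Sy_iter hx j
      obtain ⟨k', _, hk'⟩ := exists_E (F := F) (k := k) (x := -(n : ℤ)) (by rw [hk]; exact hj)
      exact ⟨k', hk'⟩
  obtain ⟨d', _, hd1, _, hd', _, _⟩ := inv_density (S := Ba F) (fun N _ _ => Ba_inv (fun y hy => (hF y hy).2.2) N)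
  have hdd : d' / 2 = d / 2 := tendsto_nhds_unique hd' hBa
  refine ⟨d, hd, by linarith, hBa, fun q b hq => ⟨?_, fun x => ?_⟩⟩
  · refine Dn_iff (fun n hn => and_congr_right fun hn2 => ?_) (hlaw q b hq).1
    rw [neg_cast]
    have hx : (-(n : ℤ)) % 2 = 1 := by omega
    constructor
    · rintro ⟨k, hk, hk2⟩
      obtain ⟨j, hj, hj'⟩ := En_of_E hodd k _ hx hk
      exact ⟨j, hj', by rw [hj]; exact hk2⟩
    · rintro ⟨j, hj, hj2⟩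
      obtain ⟨k, hk, hk'⟩ := E_of_En hodd j _ hx hj
      exact ⟨k, hk', by rw [← hk]; exact hj2⟩
  · refine Dn_iff (fun n hn => and_congr_right fun hn2 => ?_) ((hlaw q b hq).2 x)
    rw [neg_cast]
    have hx : (-(n : ℤ)) % 2 = 1 := by omega
    constructor
    · rintro ⟨k, hk1, hk, hk2⟩
      obtain ⟨j, hj, hj'⟩ := En_of_E hodd k _ hx hk
      refine ⟨j, hj', ?_, by rw [hj]; exact hk2⟩
      rw [← hj] at hk1
      exact_mod_cast hk1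
    · rintro ⟨j, hj, hj1, hj2⟩
      obtain ⟨k, hk, hk'⟩ := E_of_En hodd j _ hx hj
      refine ⟨k, ?_, hk', by rw [← hk]; exact hj2⟩
      rw [← hk]
      exact_mod_cast hj1

theorem MnS_iff {s : ℕ → ℕ} {P Q : ℕ → Prop} {d : ℝ} (h : ∀ n, P n ↔ Q n) (hP : MnS s (ind P) d) :
    MnS s (ind Q) d := by
  have e : ind P = ind Q := by
    funext n
    exact ind_congr (h n)
  rw [← e]
  exact hP

theorem bo_th' (x : ℝ) (n : ℕ) : th (1 / Real.log (4 / 3)) bO x n = bo x (Real.log n) := by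
  unfold bO Pool.Agent.H499R2.HL.bo
  rw [th_eq]

/-- THE LAWS ALONG THE SEQUENCE -/
theorem seq_law {c : ℝ} (hc : 1 < c) (hc' : c < 101 / 100) {F : Finset ℤ}
    (hF : ∀ y ∈ F, y < 0 ∧ y % 2 = 1 ∧ Sy y ∈ F) {δ : ℝ} (h0 : 0 < δ) (h1 : δ ≤ 1)
    (hBa : Dn (fun n : ℕ => n % 2 = 1 ∧ -(n : ℤ) ∈ Ba F) (δ / 2))
    (hlaw : ∀ (q : ℕ) (b : ℤ), 1 ≤ q →
      Dn (fun n : ℕ => n % 2 = 1 ∧ ∃ k : ℕ, En F k (-(n : ℤ)) ∧ (k : ℤ) ≡ b [ZMOD q]) (δ / q / 2) ∧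
      ∀ x : ℝ, Dn (fun n : ℕ => n % 2 = 1 ∧ ∃ k : ℕ, En F k (-(n : ℤ)) ∧
        (k : ℝ) ≤ bo x (Real.log n) ∧ (k : ℤ) ≡ b [ZMOD q]) (δ / q * Phi x / 2)) :
    MnS (ps c) (ind (fun n => n % 2 = 1 ∧ -(n : ℤ) ∈ Ba F)) (δ / 2) ∧
    ∀ (q : ℕ) (b : ℤ), 1 ≤ q →
      MnS (ps c) (ind (fun n => n % 2 = 1 ∧ ∃ k : ℕ, En F k (-(n : ℤ)) ∧ (k : ℤ) ≡ b [ZMOD q])) (δ / q / 2) ∧
      ∀ x : ℝ, MnS (ps c) (ind (fun n => n % 2 = 1 ∧ ∃ k : ℕ, En F k (-(n : ℤ)) ∧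
        (k : ℝ) ≤ bo x (Real.log n) ∧ (k : ℤ) ≡ b [ZMOD q])) (δ / q * Phi x / 2) := by
  obtain ⟨K, hK, hT⟩ := TS_PE hc hc' (fun y hy => (hF y hy).2)
  obtain ⟨K', hK', hT'⟩ := TS_inv hc hc'
  refine ⟨?_, fun q b hq => ?_⟩
  · refine ps_set hc hc' hK' (hT' (Ba F) fun N _ _ => Ba_inv (fun y hy => (hF y hy).2.2) N) ?_ (Mn_of_Dn hBa)
    rw [abs_of_pos (by positivity)]
    linarith
  have hq1 : (1 : ℝ) ≤ q := by exact_mod_cast hq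
  have hδq : δ / q ≤ 1 := by
    rw [div_le_one (by linarith)]
    linarith
  have hδq0 : 0 < δ / q := by positivity
  refine ⟨?_, fun x => ?_⟩
  · have h2 := ps_set (d := δ / q / 2) hc hc' hK (hT {k | (k : ℤ) ≡ b [ZMOD q]})
      (by rw [abs_of_pos (by positivity)]; linarith) (Mn_of_Dn (Dn_iff (fun n _ => by
        unfold PE
        refine and_congr_right fun _ => exists_congr fun k => ?_
        rw [and_comm]; rfl) (hlaw q b hq).1))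
    refine MnS_iff (fun n => ?_) h2
    unfold PE
    refine and_congr_right fun _ => exists_congr fun k => ?_
    rw [and_comm]; rfl
  · set L : ℝ → ℕ → Prop := fun t n => PE F {k : ℕ | (k : ℝ) ≤ t ∧ (k : ℤ) ≡ b [ZMOD q]} n with hL
    have hiff : ∀ (y : ℝ) (n : ℕ), L (th (1 / Real.log (4 / 3)) bO y n) n ↔ (n % 2 = 1 ∧ ∃ k : ℕ, En F k (-(n : ℤ)) ∧
        (k : ℝ) ≤ bo y (Real.log n) ∧ (k : ℤ) ≡ b [ZMOD q]) := by
      intro y n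
      rw [hL, bo_th']
      unfold PE
      refine and_congr_right fun _ => exists_congr fun k => ?_
      rw [and_comm]; rfl
    have h2 := ps_lawG (L := L) (A := 1 / Real.log (4 / 3)) (b := bO) (d := fun y => δ / q * Phi y / 2) hc hc' hK
      (fun t t' n htt' h => by
        obtain ⟨h3, k, h4, h5⟩ := h
        exact ⟨h3, k, ⟨h4.1.trans htt', h4.2⟩, h5⟩)
      (fun t => hT _) (by have := nu_pos'; positivity) bO_pos
      ((continuous_const.mul Phi_continuous).div_const 2)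
      (fun y => by
        have g1 := Phi01 y
        have g2 : δ / q * Phi y ≤ 1 * 1 := mul_le_mul hδq g1.2 g1.1 (by norm_num)
        have g3 : 0 ≤ δ / q * Phi y := mul_nonneg hδq0.le g1.1
        constructor <;> linarith)
      (fun y => Mn_of_Dn (Dn_iff (fun n _ => (hiff y n).symm) ((hlaw q b hq).2 y))) x
    exact MnS_iff (fun n => hiff x n) h2

/-- invariant sets along the sequence -/
theorem seq_inv {c : ℝ} (hc : 1 < c) (hc' : c < 101 / 100) {S : Set ℤ}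
    (hS : ∀ N : ℤ, N < 0 → N % 2 = 1 → (N ∈ S ↔ Sy N ∈ S)) :
    ∃ d : ℝ, Dn (fun n : ℕ => n % 2 = 1 ∧ -(n : ℤ) ∈ S) (d / 2) ∧
      MnS (ps c) (ind (fun n => n % 2 = 1 ∧ -(n : ℤ) ∈ S)) (d / 2) ∧
      (d = 0 ↔ ∀ N : ℤ, N < 0 → N % 2 = 1 → N ∉ S) ∧ (d = 1 ↔ ∀ N : ℤ, N < 0 → N % 2 = 1 → N ∈ S) := by
  obtain ⟨K', hK', hT'⟩ := TS_inv hc hc'
  obtain ⟨d, h0, h1, _, h2, h3, h4⟩ := inv_density hS
  refine ⟨d, h2, ?_, h3, h4⟩
  refine ps_set hc hc' hK' (hT' S hS) ?_ (Mn_of_Dn h2)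
  rw [abs_of_nonneg (by linarith)]
  linarith

end Pool.Agent.H417_psn
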