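import Pool.Agent.H417_psn.D
import Pool.Agent.R468.GL.Neg

/-! Lower bounds for the number of the terms of the sequence with a given entrance time. -/

set_option autoImplicit false

namespace Pool.Agent.H417_psn

open Finset Filter Topology Pool.Agent.Y965.PS Pool.Agent.Y965.PL
open Pool.Agent.W26.HN
open Pool.Agent.H499R2.ND (Td Dn Inv Phi Phi_continuous)
open Pool.Agent.H499R2.LT (od od_add Dn_iff)

/-- the number of the negative odd integers `≥ -x` with entrance time `k`, for `k` near the mean -/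
theorem cnt_lower {F : Finset ℤ} (hne : F.Nonempty) (hF : ∀ y ∈ F, y < 0 ∧ y % 2 = 1 ∧ Sy y ∈ F) (B : ℝ) :
    ∃ c₁ x₀ : ℝ, 0 < c₁ ∧ ∀ x : ℝ, x₀ ≤ x → ∀ k : ℕ,
      |(k : ℝ) - 1 / Real.log (4 / 3) * Real.log x| ≤ B * √ (Real.log x) →
      c₁ * x / √ (Real.log x) ≤ ({N : ℤ | -x ≤ (N : ℝ) ∧ N < 0 ∧ Odd N ∧ En F k N}.ncard : ℝ) := by
  obtain ⟨δ, Ψ, hδ, _, _, _, _, _, hΨ, _, hlaw⟩ := Pool.Agent.R468.GL.law_neg hne
    (fun y hy => ⟨(hF y hy).1, (hF y hy).2.1⟩) (fun y hy => (hF y hy).2.2)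
  have hl2 : 0 < Real.log 2 := Real.log_pos (by norm_num)
  have hν := nu_pos'
  set σ : ℝ := 2 * Real.log 2 ^ 2 / Real.log (4 / 3) ^ 3 with hσ
  have hσ0 : 0 < σ := by positivity
  obtain ⟨X₀, hX₀⟩ := hlaw B (δ * Real.log 2 / 2) (by positivity)
  set e₁ : ℝ := Real.exp (-(B ^ 2 / (2 * σ))) / √ (2 * Real.pi * σ) with he₁
  have he₁0 : 0 < e₁ := by positivity
  refine ⟨1 / 2 * e₁ * (δ * Real.log 2 / 2), max X₀ 3, by positivity, fun x hx k hk => ?_⟩
  have hx3 : 3 ≤ x := (le_max_right _ _).trans hx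
  have hx0 : 0 < x := by linarith
  have hL : 0 < Real.log x := Real.log_pos (by linarith)
  have hsL : 0 < √ (Real.log x) := Real.sqrt_pos.2 hL
  have h1 := hX₀ x ((le_max_left _ _).trans hx) k hk
  set L := Real.log x with hLdef
  set g : ℝ := Real.exp (-(((k : ℝ) - 1 / Real.log (4 / 3) * L) ^ 2 / (2 * (σ * L)))) /
    √ (2 * Real.pi * (σ * L)) with hg
  have hg1 : e₁ / √ L ≤ g := by
    have e2 : √ (2 * Real.pi * (σ * L)) = √ (2 * Real.pi * σ) * √ L := by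
      rw [← Real.sqrt_mul (by positivity)]; ring_nf
    rw [hg, he₁, e2, div_div]
    apply div_le_div_of_nonneg_right _ (by positivity)
    apply Real.exp_le_exp.2
    apply neg_le_neg
    rw [div_le_div_iff₀ (by positivity) (by positivity)]
    have h3 : ((k : ℝ) - 1 / Real.log (4 / 3) * L) ^ 2 ≤ B ^ 2 * L := by
      rw [← sq_abs]
      have h4 := pow_le_pow_left₀ (abs_nonneg _) hk 2
      rw [mul_pow, Real.sq_sqrt hL.le] at h4
      exact h4
    nlinarith [mul_le_mul_of_nonneg_right h3 (by positivity : (0:ℝ) ≤ 2 * σ)]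
  have hg0 : 0 < g := lt_of_lt_of_le (by positivity) hg1
  have h2 := (abs_le.1 h1).1
  have h3 := (hΨ (Real.logb 2 (3 ^ k * x))).1
  have hden : 0 < x / 2 * g := by positivity
  have h4 : δ * Real.log 2 / 2 ≤ ({N : ℤ | -x ≤ (N : ℝ) ∧ N < 0 ∧ Odd N ∧ En F k N}.ncard : ℝ) / (x / 2 * g) := by
    linarith
  rw [le_div_iff₀ hden] at h4
  refine le_trans ?_ h4
  calc 1 / 2 * e₁ * (δ * Real.log 2 / 2) * x / √ L = δ * Real.log 2 / 2 * (x / 2 * (e₁ / √ L)) := by ring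
    _ ≤ δ * Real.log 2 / 2 * (x / 2 * g) := by gcongr

theorem ell_lower' {γ : ℝ} (hγ0 : 0 < γ) (hγ1 : γ < 1) {N : ℕ} (hN : 1 ≤ N) :
    γ / 2 * (N : ℝ) ^ γ ≤ ell γ N * N := by
  have hN0 : (0 : ℝ) < N := by exact_mod_cast hN
  have hN1 : (1 : ℝ) ≤ N := by exact_mod_cast hN
  -- Bernoulli in the form `(1 + t) ^ γ ≥ 1 + γ t / 2` for `t ≤ 1`
  set t : ℝ := 1 / N with ht
  have ht0 : 0 < t := by positivity
  have ht1 : t ≤ 1 := by rw [ht, div_le_one hN0]; exact hN1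
  have hb : γ / 2 * t ≤ (1 + t) ^ γ - 1 := by
    -- `(1 + t) ^ γ = exp (γ log (1 + t)) ≥ 1 + γ log (1 + t) ≥ 1 + γ t / (1 + t)`
    have h1 : t / (1 + t) ≤ Real.log (1 + t) := by
      have := Real.one_sub_inv_le_log_of_pos (show (0 : ℝ) < 1 + t by linarith)
      have e : 1 - (1 + t)⁻¹ = t / (1 + t) := by field_simp; ring
      rwa [e] at this
    have h2 : t / 2 ≤ t / (1 + t) := div_le_div_of_nonneg_left ht0.le (by linarith) (by linarith)
    have h3 : γ * Real.log (1 + t) + 1 ≤ (1 + t) ^ γ := by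
      rw [Real.rpow_def_of_pos (by linarith), mul_comm (Real.log (1 + t))]
      exact Real.add_one_le_exp _
    have h4 : γ * (t / 2) ≤ γ * Real.log (1 + t) := mul_le_mul_of_nonneg_left (h2.trans h1) hγ0.le
    linarith
  have e1 : ell γ N = (N : ℝ) ^ γ * ((1 + t) ^ γ - 1) := by
    unfold ell
    have e2 : (N : ℝ) + 1 = N * (1 + t) := by rw [ht]; field_simp
    rw [e2, Real.mul_rpow hN0.le (by linarith)]
    ring
  have h5 : t * N = 1 := by rw [ht]; field_simp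
  have h6 : 0 ≤ (N : ℝ) ^ γ := by positivity
  calc γ / 2 * (N : ℝ) ^ γ = (N : ℝ) ^ γ * (γ / 2 * t) * N := by
        rw [mul_assoc, mul_assoc (γ / 2), h5]; ring
    _ ≤ (N : ℝ) ^ γ * ((1 + t) ^ γ - 1) * N := by gcongr
    _ = ell γ N * N := by rw [e1]

/-- a power saving is smaller than `X / √(log X)` -/
theorem small_sqrt (K : ℝ) {e : ℝ} (he : 0 < e) : ∃ X₁ : ℕ, ∀ X : ℕ, X₁ ≤ X →
    K * (X : ℝ) ^ (1 - 1 / 4000 : ℝ) ≤ e * X / √ (Real.log X) := by
  have h1 : Tendsto (fun X : ℕ => Real.log (X : ℝ) / (X : ℝ) ^ (1 / 4000 : ℝ)) atTop (𝓝 0) := by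
    have h2 := (isLittleO_log_rpow_atTop (show (0 : ℝ) < 1 / 4000 by norm_num)).tendsto_div_nhds_zero
    exact h2.comp tendsto_natCast_atTop_atTop
  have h2 := h1.const_mul |K|
  rw [mul_zero] at h2
  obtain ⟨X₁, hX₁⟩ := ((h2.eventually (gt_mem_nhds he)).and (eventually_ge_atTop 3)).exists_forall_of_atTop
  refine ⟨X₁, fun X hX => ?_⟩
  obtain ⟨h3, h4⟩ := hX₁ X hX
  have hX3 : (3 : ℝ) ≤ X := by exact_mod_cast h4
  have hX0 : (0 : ℝ) < X := by linarith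
  have hl : 1 ≤ Real.log X := by
    rw [Real.le_log_iff_exp_le hX0]
    exact (Real.exp_one_lt_d9.le.trans (by norm_num)).trans hX3
  have hs1 : 1 ≤ √ (Real.log (X : ℝ)) := by rw [Real.one_le_sqrt]; exact hl
  have hs2 : √ (Real.log (X : ℝ)) ≤ Real.log X := by
    rw [Real.sqrt_le_left (by linarith)]; nlinarith
  rw [le_div_iff₀ (by linarith)]
  have e1 : (X : ℝ) ^ (1 - 1 / 4000 : ℝ) = X / (X : ℝ) ^ (1 / 4000 : ℝ) := by
    rw [Real.rpow_sub hX0, Real.rpow_one]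
  rw [e1]
  have h5 : |K| * (Real.log X / (X : ℝ) ^ (1 / 4000 : ℝ)) * X ≤ e * X := mul_le_mul_of_nonneg_right h3.le hX0.le
  refine le_trans ?_ h5
  have hp : 0 < (X : ℝ) ^ (1 / 4000 : ℝ) := by positivity
  calc K * (X / (X : ℝ) ^ (1 / 4000 : ℝ)) * √ (Real.log X)
      ≤ |K| * (X / (X : ℝ) ^ (1 / 4000 : ℝ)) * √ (Real.log X) := by gcongr; exact le_abs_self K
    _ ≤ |K| * (X / (X : ℝ) ^ (1 / 4000 : ℝ)) * Real.log X := by gcongr
    _ = |K| * (Real.log X / (X : ℝ) ^ (1 / 4000 : ℝ)) * X := by ring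

/-- LOWER BOUNDS ALONG THE SEQUENCE -/
theorem seq_lower {c : ℝ} (hc : 1 < c) (hc' : c < 101 / 100) {F : Finset ℤ} (hne : F.Nonempty)
    (hF : ∀ y ∈ F, y < 0 ∧ y % 2 = 1 ∧ Sy y ∈ F) {B : ℝ} (hB : 0 < B) : ∃ C : ℝ, 0 < C ∧ ∃ X₀ : ℕ,
    ∀ X : ℕ, X₀ ≤ X → ∀ k : ℕ,
      |(k : ℝ) - 1 / Real.log (4 / 3) * (c * Real.log X)| ≤ B * √ (Real.log X) →
      C * X / √ (Real.log X) ≤
        ({n : ℕ | 1 ≤ n ∧ n ≤ X ∧ PE F {k} ⌊(n : ℝ) ^ c⌋₊}.ncard : ℝ) := by
  classical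
  have hc0 : 0 < c := by linarith
  set γ : ℝ := 1 / c with hγ
  have hγ0 : 0 < γ := by positivity
  have hγ1 : γ < 1 := by rw [hγ, div_lt_one hc0]; exact hc
  have hcγ : ∀ y : ℝ, 0 ≤ y → (y ^ c) ^ γ = y := by
    intro y hy
    rw [← Real.rpow_mul hy, hγ, mul_one_div, div_self hc0.ne', Real.rpow_one]
  obtain ⟨K, hK, hT⟩ := TS_PE hc hc' (fun y hy => (hF y hy).2)
  have hν := nu_pos'
  obtain ⟨c1, x0, hc1, hL⟩ := cnt_lower hne hF (B + 1 / Real.log (4 / 3))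
  obtain ⟨X1, hX1⟩ := small_sqrt K (show (0 : ℝ) < γ * c1 / 16 by positivity)
  obtain ⟨X2, hX2⟩ := exists_nat_ge x0
  refine ⟨γ * c1 / 16, by positivity, max (max X1 X2) 3, fun X hX k hk => ?_⟩
  have hXX1 : X1 ≤ X := (le_max_left _ _).trans ((le_max_left _ _).trans hX)
  have hXX2 : X2 ≤ X := (le_max_right _ _).trans ((le_max_left _ _).trans hX)
  have hX3 : 3 ≤ X := (le_max_right _ _).trans hX
  have hXR : (3 : ℝ) ≤ X := by exact_mod_cast hX3
  have hX0 : (0 : ℝ) < X := by linarith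
  set N := ⌊(X : ℝ) ^ c⌋₊ with hN
  have hNX : X ≤ N := by
    rw [hN]
    apply Nat.le_floor
    calc (X : ℝ) = (X : ℝ) ^ (1 : ℝ) := (Real.rpow_one _).symm
      _ ≤ (X : ℝ) ^ c := Real.rpow_le_rpow_of_exponent_le (by linarith) hc.le
  have hNXR : (X : ℝ) ≤ N := by exact_mod_cast hNX
  have hN0 : (0 : ℝ) < N := by linarith
  have hNc : (N : ℝ) ≤ (X : ℝ) ^ c := Nat.floor_le (by positivity)
  have hNc' : (X : ℝ) ^ c < N + 1 := Nat.lt_floor_add_one _
  have hlX1 : 1 ≤ Real.log X := by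
    rw [Real.le_log_iff_exp_le hX0]
    exact (Real.exp_one_lt_d9.le.trans (by norm_num)).trans hXR
  have hlN : Real.log X ≤ Real.log N := Real.log_le_log hX0 hNXR
  have hlN2 : Real.log N ≤ c * Real.log X := by
    rw [← Real.log_rpow hX0]; exact Real.log_le_log hN0 hNc
  have hlN3 : c * Real.log X - Real.log 2 ≤ Real.log N := by
    rw [← Real.log_rpow hX0, ← Real.log_div (by positivity) (by norm_num)]
    apply Real.log_le_log (by positivity)
    linarith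
  set sX := √ (Real.log X) with hsX
  have hsX1 : 1 ≤ sX := by rw [hsX, Real.one_le_sqrt]; exact hlX1
  set sN := √ (Real.log N) with hsN
  have hsN1 : sX ≤ sN := Real.sqrt_le_sqrt hlN
  have hsN2 : sN ≤ 2 * sX := by
    have h1 : Real.log N ≤ 2 ^ 2 * Real.log X := by nlinarith
    calc sN ≤ √ (2 ^ 2 * Real.log X) := Real.sqrt_le_sqrt h1
      _ = 2 * sX := by rw [Real.sqrt_mul (by norm_num), Real.sqrt_sq (by norm_num)]
  have hl2 : Real.log 2 ≤ 1 := by linarith [Real.log_two_lt_d9]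
  have hl20 : 0 < Real.log 2 := Real.log_pos (by norm_num)
  have h1 := hL (N : ℝ) (by
    have : (X2 : ℝ) ≤ X := by exact_mod_cast hXX2
    linarith) k (by
    rw [← hsN]
    have g1 := abs_le.1 hk
    have g2 : 0 < 1 / Real.log (4 / 3) := by positivity
    have g3 : |1 / Real.log (4 / 3) * (c * Real.log X) - 1 / Real.log (4 / 3) * Real.log N| ≤ 1 / Real.log (4 / 3) := by
      rw [← mul_sub, abs_mul, abs_of_pos g2]
      have : |c * Real.log X - Real.log N| ≤ 1 := by rw [abs_le]; constructor <;> linarith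
      nlinarith
    rw [abs_le] at g3
    have g4 : B * sX ≤ B * sN := mul_le_mul_of_nonneg_left hsN1 hB.le
    have g5 : 1 / Real.log (4 / 3) ≤ 1 / Real.log (4 / 3) * sN := by
      have : 1 ≤ sN := hsX1.trans hsN1
      nlinarith
    rw [abs_le]
    constructor <;> linarith)
  rw [← hsN] at h1
  -- the number of elements
  have h2 : ({M : ℤ | -(N : ℝ) ≤ (M : ℝ) ∧ M < 0 ∧ Odd M ∧ En F k M}.ncard : ℝ) ≤
      (((Icc 1 N).filter (PE F {k})).card : ℝ) := by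
    have hsub : {M : ℤ | -(N : ℝ) ≤ (M : ℝ) ∧ M < 0 ∧ Odd M ∧ En F k M} ⊆
        (((Icc 1 N).filter (PE F {k})).image fun n : ℕ => -(n : ℤ) : Finset ℤ) := by
      rintro M ⟨g1, g2, g3, g4⟩
      rw [mem_coe, mem_image]
      have g1' : -(N : ℤ) ≤ M := by exact_mod_cast g1
      have g3' := Int.odd_iff.1 g3
      refine ⟨M.natAbs, mem_filter.2 ⟨mem_Icc.2 (by omega), ⟨by omega, k, rfl, ?_⟩⟩, by omega⟩
      have : -((M.natAbs : ℕ) : ℤ) = M := by omega
      rw [this]; exact g4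
    have h3 := Set.ncard_le_ncard hsub (Finset.finite_toSet _)
    rw [Set.ncard_coe_finset] at h3
    exact_mod_cast h3.trans card_image_le
  have hell : ∀ m : ℕ, 1 ≤ m → m ≤ N → ell γ N ≤ ell γ m := by
    intro m hm1 hm2
    have hgen : ∀ t : ℕ, ell γ (m + t) ≤ ell γ m := by
      intro t
      induction t with
      | zero => rfl
      | succ t ih => exact (ell_anti hγ0 hγ1 (m := m + t) (by omega)).trans ih
    have := hgen (N - m)
    rwa [Nat.add_sub_cancel' hm2] at this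
  have h3 : ell γ N * (((Icc 1 N).filter (PE F {k})).card : ℝ) ≤
      ∑ m ∈ (Icc 1 N).filter (PE F {k}), (((m : ℝ) + 1) ^ (1 / c) - (m : ℝ) ^ (1 / c)) := by
    rw [mul_comm, ← nsmul_eq_mul]
    apply card_nsmul_le_sum
    intro m hm
    have hm' := mem_Icc.1 (mem_filter.1 hm).1
    exact hell m hm'.1 hm'.2
  have h4 := (abs_le.1 (TS_card (hT {k}) X (by omega))).1
  rw [← hN] at h4
  have h5 := ell_lower' hγ0 hγ1 (N := N) (by omega)
  have hellN := ell_nonneg hγ0 N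
  have h6 : (X : ℝ) / 2 ≤ (N : ℝ) ^ γ := by
    have g1 : ((X : ℝ) ^ c / 2) ^ γ ≤ (N : ℝ) ^ γ := Real.rpow_le_rpow (by positivity) (by linarith) hγ0.le
    rw [Real.div_rpow (by positivity) (by norm_num), hcγ X hX0.le] at g1
    have g2 : (2 : ℝ) ^ γ ≤ 2 := by
      calc (2 : ℝ) ^ γ ≤ (2 : ℝ) ^ (1 : ℝ) := Real.rpow_le_rpow_of_exponent_le (by norm_num) hγ1.le
        _ = 2 := Real.rpow_one 2
    have g3 : (X : ℝ) / 2 ≤ X / 2 ^ γ := div_le_div_of_nonneg_left hX0.le (by positivity) g2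
    linarith
  have hsN0 : 0 < sN := by linarith
  have h7 : γ * c1 / 8 * X / sX ≤ ell γ N * (((Icc 1 N).filter (PE F {k})).card : ℝ) := by
    calc γ * c1 / 8 * X / sX = γ / 2 * (X / 2) * (c1 / (2 * sX)) := by field_simp; ring
      _ ≤ γ / 2 * (N : ℝ) ^ γ * (c1 / sN) := by gcongr
      _ ≤ ell γ N * N * (c1 / sN) := by gcongr
      _ = ell γ N * (c1 * N / sN) := by ring
      _ ≤ ell γ N * (((Icc 1 N).filter (PE F {k})).card : ℝ) :=
        mul_le_mul_of_nonneg_left (h1.trans h2) hellN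
  have h8 := hX1 X hXX1
  rw [← hsX] at h8
  have e9 : γ * c1 / 8 * X / sX = γ * c1 / 16 * X / sX + γ * c1 / 16 * X / sX := by ring
  linarith

end Pool.Agent.H417_psn
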