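import Pool.Agent.H417_psn.E

/-! Upper bounds for the number of the terms of the sequence with a given entrance time. -/

set_option autoImplicit false

namespace Pool.Agent.H417_psn

open Finset Filter Topology Pool.Agent.Y965.PS Pool.Agent.Y965.PL
open Pool.Agent.W26.HN
open Pool.Agent.H499R2.ND (Td Dn Inv Phi Phi_continuous)
open Pool.Agent.H499R2.LT (od od_add Dn_iff)

/-- the number of the negative odd integers `≥ -x` with entrance time `k`, for `k` near the mean -/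
theorem cnt_upper {F : Finset ℤ} (hne : F.Nonempty) (hF : ∀ y ∈ F, y < 0 ∧ y % 2 = 1 ∧ Sy y ∈ F) (B : ℝ) :
    ∃ c₁ x₀ : ℝ, 0 < c₁ ∧ ∀ x : ℝ, x₀ ≤ x → ∀ k : ℕ,
      |(k : ℝ) - 1 / Real.log (4 / 3) * Real.log x| ≤ B * √ (Real.log x) →
      ({N : ℤ | -x ≤ (N : ℝ) ∧ N < 0 ∧ Odd N ∧ En F k N}.ncard : ℝ) ≤ c₁ * x / √ (Real.log x) := by
  obtain ⟨δ, Ψ, hδ, _, _, _, _, _, hΨ, _, hlaw⟩ := Pool.Agent.R468.GL.law_neg hne
    (fun y hy => ⟨(hF y hy).1, (hF y hy).2.1⟩) (fun y hy => (hF y hy).2.2)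
  have hl2 : 0 < Real.log 2 := Real.log_pos (by norm_num)
  have hν := nu_pos'
  set σ : ℝ := 2 * Real.log 2 ^ 2 / Real.log (4 / 3) ^ 3 with hσ
  have hσ0 : 0 < σ := by positivity
  obtain ⟨X₀, hX₀⟩ := hlaw B 1 one_pos
  set e₁ : ℝ := 1 / √ (2 * Real.pi * σ) with he₁
  have he₁0 : 0 < e₁ := by positivity
  refine ⟨1 / 2 * e₁ * (2 * δ * Real.log 2 + 1), max X₀ 3, by positivity, fun x hx k hk => ?_⟩
  have hx3 : 3 ≤ x := (le_max_right _ _).trans hx
  have hx0 : 0 < x := by linarith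
  have hL : 0 < Real.log x := Real.log_pos (by linarith)
  have hsL : 0 < √ (Real.log x) := Real.sqrt_pos.2 hL
  have h1 := hX₀ x ((le_max_left _ _).trans hx) k hk
  set L := Real.log x with hLdef
  set g : ℝ := Real.exp (-(((k : ℝ) - 1 / Real.log (4 / 3) * L) ^ 2 / (2 * (σ * L)))) /
    √ (2 * Real.pi * (σ * L)) with hg
  have hg1 : g ≤ e₁ / √ L := by
    have e2 : √ (2 * Real.pi * (σ * L)) = √ (2 * Real.pi * σ) * √ L := by
      rw [← Real.sqrt_mul (by positivity)]; ring_nf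
    rw [hg, he₁, e2, div_div]
    apply div_le_div_of_nonneg_right _ (by positivity)
    rw [Real.exp_le_one_iff]
    apply neg_nonpos.2
    positivity
  have hg0 : 0 < g := by rw [hg]; positivity
  have h2 := (abs_le.1 h1).2
  have h3 := (hΨ (Real.logb 2 (3 ^ k * x))).2
  have hden : 0 < x / 2 * g := by positivity
  have h4 : ({N : ℤ | -x ≤ (N : ℝ) ∧ N < 0 ∧ Odd N ∧ En F k N}.ncard : ℝ) / (x / 2 * g) ≤
      2 * δ * Real.log 2 + 1 := by
    linarith
  rw [div_le_iff₀ hden] at h4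
  refine h4.trans ?_
  calc (2 * δ * Real.log 2 + 1) * (x / 2 * g) ≤ (2 * δ * Real.log 2 + 1) * (x / 2 * (e₁ / √ L)) := by gcongr
    _ = 1 / 2 * e₁ * (2 * δ * Real.log 2 + 1) * x / √ L := by ring

open Classical in
theorem card_PE_le (F : Finset ℤ) (k m : ℕ) : (((Icc 1 m).filter (PE F {k})).card : ℝ) ≤
    ({M : ℤ | -(m : ℝ) ≤ (M : ℝ) ∧ M < 0 ∧ Odd M ∧ En F k M}.ncard : ℝ) := by
  have hfin : {M : ℤ | -(m : ℝ) ≤ (M : ℝ) ∧ M < 0 ∧ Odd M ∧ En F k M}.Finite :=
    (Set.finite_Icc (-(m : ℤ)) 0).subset fun M hM => ⟨by exact_mod_cast hM.1, hM.2.1.le⟩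
  have hsub : (((Icc 1 m).filter (PE F {k})).image (fun n : ℕ => -(n : ℤ)) : Finset ℤ) ⊆
      hfin.toFinset := by
    intro M hM
    rw [mem_image] at hM
    obtain ⟨n, hn, rfl⟩ := hM
    rw [mem_filter, mem_Icc] at hn
    obtain ⟨hn1, hn2, k', hk', hk2⟩ := hn
    have hk'' : k' = k := hk'
    subst hk''
    rw [Set.Finite.mem_toFinset]
    refine ⟨?_, by omega, by rw [Int.odd_iff]; omega, hk2⟩
    push_cast
    have : (n : ℝ) ≤ m := by exact_mod_cast hn1.2
    linarith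
  have h1 := card_le_card hsub
  rw [card_image_of_injective _ (fun a b hab => by
    have : -(a : ℤ) = -(b : ℤ) := hab
    omega), ← Set.ncard_eq_toFinset_card _ hfin] at h1
  exact_mod_cast h1

/-- UPPER BOUNDS ALONG THE SEQUENCE -/
theorem seq_upper {c : ℝ} (hc : 1 < c) (hc' : c < 101 / 100) {F : Finset ℤ} (hne : F.Nonempty)
    (hF : ∀ y ∈ F, y < 0 ∧ y % 2 = 1 ∧ Sy y ∈ F) {B : ℝ} (hB : 0 < B) : ∃ C : ℝ, 0 < C ∧ ∃ X₀ : ℕ,
    ∀ X : ℕ, X₀ ≤ X → ∀ k : ℕ,
      |(k : ℝ) - 1 / Real.log (4 / 3) * (c * Real.log X)| ≤ B * √ (Real.log X) →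
        ({n : ℕ | 1 ≤ n ∧ n ≤ X ∧ PE F {k} ⌊(n : ℝ) ^ c⌋₊}.ncard : ℝ) ≤ C * X / √ (Real.log X) := by
  classical
  have hc0 : 0 < c := by linarith
  set γ : ℝ := 1 / c with hγ
  have hγ0 : 0 < γ := by positivity
  have hγ1 : γ < 1 := by rw [hγ, div_lt_one hc0]; exact hc
  have hcγ : ∀ y : ℝ, 0 ≤ y → (y ^ c) ^ γ = y := by
    intro y hy
    rw [← Real.rpow_mul hy, hγ, mul_one_div, div_self hc0.ne', Real.rpow_one]
  obtain ⟨K, hK, hT⟩ := TS_PE hc hc' (fun y hy => (hF y hy).2)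
  have hν := nu_pos'
  set μ : ℝ := 1 / Real.log (4 / 3) with hμ
  have hμ0 : 0 < μ := by positivity
  obtain ⟨c1, x0, hc1, hU⟩ := cnt_upper hne hF (2 * (B + 2 * μ))
  obtain ⟨X1, hX1⟩ := small_sqrt K (show (0 : ℝ) < 1 by norm_num)
  obtain ⟨X2, hX2⟩ := exists_nat_ge x0
  refine ⟨1 + 4 * c1 + 4 / γ, by positivity, max (max X1 (X2 ^ 2)) 60, fun X hX k hk => ?_⟩
  have hXX1 : X1 ≤ X := (le_max_left _ _).trans ((le_max_left _ _).trans hX)
  have hXX2 : X2 ^ 2 ≤ X := (le_max_right _ _).trans ((le_max_left _ _).trans hX)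
  have hX3 : 60 ≤ X := (le_max_right _ _).trans hX
  have hXR : (60 : ℝ) ≤ X := by exact_mod_cast hX3
  have hX0 : (0 : ℝ) < X := by linarith
  set N := ⌊(X : ℝ) ^ c⌋₊ with hN
  have hNX : X ≤ N := by
    rw [hN]
    apply Nat.le_floor
    calc (X : ℝ) = (X : ℝ) ^ (1 : ℝ) := (Real.rpow_one _).symm
      _ ≤ (X : ℝ) ^ c := Real.rpow_le_rpow_of_exponent_le (by linarith) hc.le
  have hNXR : (X : ℝ) ≤ N := by exact_mod_cast hNX
  have hN0 : (0 : ℝ) < N := by linarith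
  have hNc : (N : ℝ) ≤ (X : ℝ) ^ c := Nat.floor_le (by positivity)
  have hNc' : (X : ℝ) ^ c < N + 1 := Nat.lt_floor_add_one _
  have hlX4 : 4 ≤ Real.log X := by
    rw [Real.le_log_iff_exp_le hX0]
    have h1 : Real.exp 4 = Real.exp 1 ^ 4 := by rw [← Real.exp_nat_mul]; norm_num
    have h2 : Real.exp 1 ^ 4 ≤ 2.7182818286 ^ 4 := pow_le_pow_left₀ (Real.exp_pos _).le Real.exp_one_lt_d9.le 4
    rw [h1]
    refine h2.trans (le_trans (by norm_num) hXR)
  have hlN : Real.log X ≤ Real.log N := Real.log_le_log hX0 hNXR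
  have hlN2 : Real.log N ≤ c * Real.log X := by
    rw [← Real.log_rpow hX0]; exact Real.log_le_log hN0 hNc
  have hlN3 : c * Real.log X - Real.log 2 ≤ Real.log N := by
    rw [← Real.log_rpow hX0, ← Real.log_div (by positivity) (by norm_num)]
    apply Real.log_le_log (by positivity)
    linarith
  set sX := √ (Real.log X) with hsX
  have hsX2 : 2 ≤ sX := by
    rw [hsX]
    apply Real.le_sqrt_of_sq_le
    linarith
  have hsXsq : sX ^ 2 = Real.log X := Real.sq_sqrt (by linarith)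
  set sN := √ (Real.log N) with hsN
  have hsNsq : sN ^ 2 = Real.log N := Real.sq_sqrt (by linarith)
  have hsN1 : sX ≤ sN := Real.sqrt_le_sqrt hlN
  have hl2 : Real.log 2 ≤ 1 := by linarith [Real.log_two_lt_d9]
  have hl20 : 0 < Real.log 2 := Real.log_pos (by norm_num)
  -- the cut
  set m0 : ℝ := N * Real.exp (-sN) with hm0
  have hm00 : 0 < m0 := by positivity
  set u : ℕ → ℝ := fun j => if (m0 < j ∧ j ≤ N) ∧ PE F {k} j then 1 else 0 with hu
  have hm0log : Real.log m0 = Real.log N - sN := by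
    rw [hm0, Real.log_mul hN0.ne' (Real.exp_pos _).ne', Real.log_exp]; ring
  have hhalf : Real.log N / 2 ≤ Real.log m0 := by
    rw [hm0log, ← hsNsq]; nlinarith
  have hx0m0 : x0 ≤ m0 := by
    have h1 : (X2 : ℝ) ≤ √ (X : ℝ) := by
      apply Real.le_sqrt_of_sq_le
      exact_mod_cast hXX2
    have h2 : √ (X : ℝ) ≤ m0 := by
      rw [← Real.log_le_log_iff (by positivity) hm00, Real.log_sqrt hX0.le]
      linarith
    linarith
  have hbound : ∀ m : ℕ, m0 < m → m ≤ N → (((Icc 1 m).filter (PE F {k})).card : ℝ) ≤ 2 * c1 / sX * m := by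
    intro m hm1 hm2
    have hm0' : (0 : ℝ) < m := by linarith
    have hmN : (m : ℝ) ≤ N := by exact_mod_cast hm2
    have hlm1 : Real.log m ≤ Real.log N := Real.log_le_log hm0' hmN
    have hlm2 : Real.log N - sN ≤ Real.log m := by rw [← hm0log]; exact Real.log_le_log hm00 hm1.le
    have hlm3 : Real.log N / 2 ≤ Real.log m := hhalf.trans (Real.log_le_log hm00 hm1.le)
    have hlm4 : Real.log X / 4 ≤ Real.log m := by linarith
    have hs1 : sX / 2 ≤ √ (Real.log m) := by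
      apply Real.le_sqrt_of_sq_le
      rw [div_pow, hsXsq]; linarith
    have hs2 : sN ≤ 2 * √ (Real.log m) := by
      have : sN / 2 ≤ √ (Real.log m) := by
        apply Real.le_sqrt_of_sq_le
        rw [div_pow, hsNsq]; linarith
      linarith
    refine (card_PE_le F k m).trans ((hU m (hx0m0.trans hm1.le) k ?_).trans ?_)
    · have g1 := abs_le.1 hk
      have g3 : |μ * (c * Real.log X) - μ * Real.log m| ≤ 2 * μ * sN := by
        rw [← mul_sub, abs_mul, abs_of_pos hμ0]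
        have : |c * Real.log X - Real.log m| ≤ 2 * sN := by rw [abs_le]; constructor <;> linarith
        nlinarith
      rw [abs_le] at g3
      have g4 : B * sX ≤ B * sN := mul_le_mul_of_nonneg_left hsN1 hB.le
      have g5 : (B + 2 * μ) * sN ≤ (B + 2 * μ) * (2 * √ (Real.log m)) :=
        mul_le_mul_of_nonneg_left hs2 (by positivity)
      rw [abs_le]
      constructor <;> nlinarith
    · have h5 : c1 * m / √ (Real.log m) ≤ c1 * m / (sX / 2) :=
        div_le_div_of_nonneg_left (by positivity) (by positivity) hs1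
      refine h5.trans (le_of_eq ?_)
      field_simp
  have hab : ∀ m : ℕ, |∑ j ∈ Icc 1 m, u j - 0 * m| ≤ 2 * c1 / sX * m + 0 := by
    intro m
    have h0 : ∀ j, 0 ≤ u j := fun j => by rw [hu]; dsimp only; split_ifs <;> norm_num
    rw [zero_mul, sub_zero, add_zero, abs_of_nonneg (sum_nonneg fun _ _ => h0 _)]
    have hcoef : 0 ≤ 2 * c1 / sX := by positivity
    -- compare with `min m N`
    have h1 : ∑ j ∈ Icc 1 m, u j ≤ (((Icc 1 (min m N)).filter (PE F {k})).card : ℝ) := by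
      rw [hu, sum_boole]
      have : ((Icc 1 m).filter fun j : ℕ => (m0 < j ∧ j ≤ N) ∧ PE F {k} j) ⊆ (Icc 1 (min m N)).filter (PE F {k}) := by
        intro j hj
        rw [mem_filter, mem_Icc] at hj
        rw [mem_filter, mem_Icc]
        exact ⟨⟨hj.1.1, le_min hj.1.2 hj.2.1.2⟩, hj.2.2⟩
      exact_mod_cast card_le_card this
    rcases le_or_gt (((min m N : ℕ) : ℕ) : ℝ) m0 with h2 | h2
    · have h3 : ∑ j ∈ Icc 1 m, u j = 0 := by
        apply sum_eq_zero
        intro j hj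
        rw [mem_Icc] at hj
        rw [hu]
        dsimp only
        rw [if_neg]
        rintro ⟨⟨h4, h5⟩, _⟩
        have : j ≤ min m N := le_min hj.2 h5
        have : (j : ℝ) ≤ (min m N : ℕ) := by exact_mod_cast this
        linarith
      rw [h3]
      positivity
    · refine h1.trans ((hbound _ h2 (min_le_right _ _)).trans ?_)
      apply mul_le_mul_of_nonneg_left _ hcoef
      exact_mod_cast min_le_left _ _
  have h1 := (abs_le.1 (abel hγ0 hγ1 (by positivity) le_rfl hab N)).2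
  rw [zero_mul, sub_zero, add_zero] at h1
  have h4 := (abs_le.1 (TS_card (hT {k}) X (by omega))).2
  rw [← hN] at h4
  -- small m
  have h2 : ∑ m ∈ (Icc 1 N).filter (PE F {k}), (((m : ℝ) + 1) ^ (1 / c) - (m : ℝ) ^ (1 / c)) ≤
      ∑ m ∈ Icc 1 N, u m * ell γ m + ((m0 : ℝ) + 1) ^ γ := by
    have h3 : ∑ m ∈ (Icc 1 N).filter (PE F {k}), (((m : ℝ) + 1) ^ (1 / c) - (m : ℝ) ^ (1 / c)) ≤
        ∑ m ∈ Icc 1 N, (u m * ell γ m + (if m ≤ ⌊m0⌋₊ then ell γ m else 0)) := by
      rw [sum_filter]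
      apply sum_le_sum
      intro m hm
      rw [mem_Icc] at hm
      have hl := ell_nonneg hγ0 m
      have e : ((m : ℝ) + 1) ^ (1 / c) - (m : ℝ) ^ (1 / c) = ell γ m := rfl
      rw [e, hu]
      dsimp only
      by_cases hP : PE F {k} m
      · rw [if_pos hP]
        by_cases hm' : m ≤ ⌊m0⌋₊
        · rw [if_pos hm']
          have : (0 : ℝ) ≤ (if (m0 < m ∧ m ≤ N) ∧ PE F {k} m then 1 else 0) := by split_ifs <;> norm_num
          nlinarith
        · rw [if_neg hm', if_pos ⟨⟨(Nat.floor_lt hm00.le).1 (not_le.1 hm'), hm.2⟩, hP⟩]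
          linarith
      · rw [if_neg hP]
        have g1 : (0 : ℝ) ≤ (if (m0 < m ∧ m ≤ N) ∧ PE F {k} m then 1 else 0) := by split_ifs <;> norm_num
        have g2 : (0 : ℝ) ≤ (if m ≤ ⌊m0⌋₊ then ell γ m else 0) := by split_ifs <;> linarith
        have := mul_nonneg g1 hl
        linarith
    refine h3.trans ?_
    rw [sum_add_distrib]
    have h5 : ∑ m ∈ Icc 1 N, (if m ≤ ⌊m0⌋₊ then ell γ m else 0) ≤ ((m0 : ℝ) + 1) ^ γ := by
      rw [← sum_filter]
      have h6 : ∑ m ∈ (Icc 1 N).filter (fun m => m ≤ ⌊m0⌋₊), ell γ m ≤ ∑ m ∈ Icc 1 ⌊m0⌋₊, ell γ m := by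
        apply sum_le_sum_of_subset_of_nonneg
        · intro m hm
          rw [mem_filter, mem_Icc] at hm
          rw [mem_Icc]
          exact ⟨hm.1.1, hm.2⟩
        · intro m _ _
          exact ell_nonneg hγ0 m
      rw [ell_sum] at h6
      have h7 : ((⌊m0⌋₊ : ℝ) + 1) ^ γ ≤ (m0 + 1) ^ γ :=
        Real.rpow_le_rpow (by positivity) (by linarith [Nat.floor_le hm00.le]) hγ0.le
      linarith
    linarith
  have h5 : ((N : ℝ) + 1) ^ γ ≤ 2 * X := by
    have g1 : ((N : ℝ) + 1) ^ γ ≤ (2 * (X : ℝ) ^ c) ^ γ := by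
      apply Real.rpow_le_rpow (by positivity) _ hγ0.le
      have : (1 : ℝ) ≤ (X : ℝ) ^ c := Real.one_le_rpow (by linarith) hc0.le
      linarith
    rw [Real.mul_rpow (by norm_num) (by positivity), hcγ X hX0.le] at g1
    have g2 : (2 : ℝ) ^ γ ≤ 2 := by
      calc (2 : ℝ) ^ γ ≤ (2 : ℝ) ^ (1 : ℝ) := Real.rpow_le_rpow_of_exponent_le (by norm_num) hγ1.le
        _ = 2 := Real.rpow_one 2
    nlinarith
  have hsX0 : 0 < sX := by linarith
  have h6 : (m0 + 1) ^ γ ≤ 4 / γ * X / sX := by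
    have hm01 : 1 ≤ m0 := by
      rw [← Real.log_nonneg_iff hm00]
      linarith
    have g1 : (m0 + 1) ^ γ ≤ (2 * ((X : ℝ) ^ c * Real.exp (-sX))) ^ γ := by
      apply Real.rpow_le_rpow (by positivity) _ hγ0.le
      have g2 : m0 ≤ (X : ℝ) ^ c * Real.exp (-sX) := by
        rw [hm0]
        apply mul_le_mul hNc _ (Real.exp_pos _).le (by positivity)
        exact Real.exp_le_exp.2 (by linarith)
      linarith
    rw [Real.mul_rpow (by norm_num) (by positivity), Real.mul_rpow (by positivity) (Real.exp_pos _).le,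
      hcγ X hX0.le, ← Real.exp_mul] at g1
    have g2 : (2 : ℝ) ^ γ ≤ 2 := by
      calc (2 : ℝ) ^ γ ≤ (2 : ℝ) ^ (1 : ℝ) := Real.rpow_le_rpow_of_exponent_le (by norm_num) hγ1.le
        _ = 2 := Real.rpow_one 2
    have g3 : Real.exp (-sX * γ) ≤ 1 / (γ * sX) := by
      rw [neg_mul, Real.exp_neg, ← one_div]
      apply one_div_le_one_div_of_le (by positivity)
      have := Real.add_one_le_exp (sX * γ)
      nlinarith
    have g4 : (X : ℝ) * Real.exp (-sX * γ) ≤ X * (1 / (γ * sX)) := mul_le_mul_of_nonneg_left g3 hX0.le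
    have g5 : 0 ≤ (X : ℝ) * Real.exp (-sX * γ) := by positivity
    calc (m0 + 1) ^ γ ≤ 2 ^ γ * (X * Real.exp (-sX * γ)) := g1
      _ ≤ 2 * (X * Real.exp (-sX * γ)) := mul_le_mul_of_nonneg_right g2 g5
      _ ≤ 2 * (X * (1 / (γ * sX))) := by linarith
      _ ≤ 4 * (X * (1 / (γ * sX))) := by
        have : 0 ≤ X * (1 / (γ * sX)) := by positivity
        linarith
      _ = 4 / γ * X / sX := by field_simp
  have h8 := hX1 X hXX1
  rw [← hsX] at h8
  have h9 : 2 * c1 / sX * ((N : ℝ) + 1) ^ γ ≤ 2 * c1 / sX * (2 * X) := mul_le_mul_of_nonneg_left h5 (by positivity)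
  have e9 : (1 + 4 * c1 + 4 / γ) * X / sX = 1 * X / sX + 2 * c1 / sX * (2 * X) + 4 / γ * X / sX := by
    field_simp
    ring
  rw [e9]
  linarith

end Pool.Agent.H417_psn
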